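import Mathlib

/-! # Derivatives of algebraic functions -/

set_option autoImplicit false
set_option linter.unusedSectionVars false

open MvPolynomial

namespace Pool.Agent.TH152.NS

/-- lifting along a nilpotent thickening -/
lemma exists_lift_sq {A E B : Type*} [CommRing A] [CommRing E] [CommRing B] [Algebra A E]
    [Algebra.FormallySmooth A E] (δ : A →+* B) (g : B →+* E) (hg : Function.Surjective g)
    (hnil : IsNilpotent (RingHom.ker g)) (h : ∀ a, g (δ a) = algebraMap A E a) :
    ∃ θ : E →+* B, (∀ x, g (θ x) = x) ∧ ∀ a, θ (algebraMap A E a) = δ a := by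
  let _ : Algebra A B := δ.toAlgebra
  let g' : B →ₐ[A] E := { g with commutes' := fun a => h a }
  let θ := Algebra.FormallySmooth.liftOfSurjective (AlgHom.id A E) g' hg hnil
  refine ⟨θ, fun x => ?_, fun a => ?_⟩
  · exact Algebra.FormallySmooth.liftOfSurjective_apply (AlgHom.id A E) g' hg hnil x
  · exact θ.commutes a

/-- evaluation of a polynomial at a point of the dual numbers -/
lemma eval₂_dual {V K E : Type*} [Fintype V] [DecidableEq V] [CommRing K] [Field E] (c : K →+* E)
    (p w : V → E) (P : MvPolynomial V K) :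
    eval₂ ((TrivSqZeroExt.inlHom E E).comp c)
      (fun i => TrivSqZeroExt.inl (p i) + TrivSqZeroExt.inr (w i)) P =
      TrivSqZeroExt.inl (eval₂ c p P) +
        TrivSqZeroExt.inr (∑ i, eval₂ c p (pderiv i P) * w i) := by
  induction P using MvPolynomial.induction_on with
  | C a =>
    simp only [eval₂_C, pderiv_C, eval₂_zero, zero_mul, Finset.sum_const_zero,
      TrivSqZeroExt.inr_zero, add_zero]
    rfl
  | add P Q hP hQ =>
    simp only [eval₂_add, map_add, hP, hQ, add_mul, Finset.sum_add_distrib,
      TrivSqZeroExt.inl_add, TrivSqZeroExt.inr_add]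
    abel
  | mul_X P j hP =>
    simp only [eval₂_mul, eval₂_X, hP, pderiv_mul, pderiv_X, eval₂_add]
    apply TrivSqZeroExt.ext
    · simp
    · simp only [TrivSqZeroExt.snd_add, TrivSqZeroExt.snd_mul, TrivSqZeroExt.fst_add,
        TrivSqZeroExt.fst_inl, TrivSqZeroExt.snd_inl, TrivSqZeroExt.fst_inr,
        TrivSqZeroExt.snd_inr, add_zero, zero_add, smul_eq_mul, MulOpposite.smul_eq_mul_unop,
        MulOpposite.unop_op, add_mul, Finset.sum_add_distrib]
      have h1 : ∀ i, eval₂ c p (Pi.single (M := fun _ => MvPolynomial V K) i 1 j) * w i =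
          if i = j then w j else 0 := by
        intro i
        by_cases h : i = j
        · subst h
          simp
        · rw [Pi.single_apply, if_neg (Ne.symm h), if_neg h, eval₂_zero, zero_mul]
      have h2 : ∑ i, eval₂ c p P * eval₂ c p (Pi.single (M := fun _ => MvPolynomial V K) i 1 j) *
          w i = eval₂ c p P * w j := by
        simp only [mul_assoc, h1, mul_ite, mul_zero, Finset.sum_ite_eq', Finset.mem_univ,
          if_true]
      rw [h2]
      have h3 : ∑ i, eval₂ c p (pderiv i P) * p j * w i =
          (∑ i, eval₂ c p (pderiv i P) * w i) * p j := by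
        rw [Finset.sum_mul]
        apply Finset.sum_congr rfl
        intro i _
        ring
      rw [h3]
      ring

section

variable {K σ E : Type*} [Field K] [CharZero K] [DecidableEq σ] [Field E]
  [Algebra (MvPolynomial σ K) E] [Algebra (FractionRing (MvPolynomial σ K)) E]
  [IsScalarTower (MvPolynomial σ K) (FractionRing (MvPolynomial σ K)) E]
  [Algebra.IsAlgebraic (FractionRing (MvPolynomial σ K)) E]

/-- the derivative of algebraic functions in the direction of a variable -/
theorem exists_dual (v : σ) : ∃ θ : E →+* TrivSqZeroExt E E, (∀ x, (θ x).fst = x) ∧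
    ∀ P : MvPolynomial σ K, θ (algebraMap _ E P) = TrivSqZeroExt.inl (algebraMap _ E P) +
      TrivSqZeroExt.inr (algebraMap _ E (pderiv v P)) := by
  set A := MvPolynomial σ K with hA
  have h1 : Algebra.FormallyEtale A (FractionRing A) :=
    Algebra.FormallyEtale.of_isLocalization (nonZeroDivisors A)
  have hch : CharZero (FractionRing A) := by
    have : Function.Injective (algebraMap A (FractionRing A)) := IsFractionRing.injective _ _
    have h2 : Function.Injective ((algebraMap A (FractionRing A)).comp (C : K →+* A)) :=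
      this.comp (C_injective σ K)
    exact charZero_of_injective_ringHom h2
  have h2 : Algebra.FormallyEtale (FractionRing A) E := Algebra.FormallyEtale.of_isSeparable _ _
  have h3 : Algebra.FormallyEtale A E := Algebra.FormallyEtale.comp A (FractionRing A) E
  -- the homomorphism on polynomials
  have hδ : ∃ δ : A →+* TrivSqZeroExt E E, ∀ P, δ P = TrivSqZeroExt.inl (algebraMap A E P) +
      TrivSqZeroExt.inr (algebraMap A E (pderiv v P)) := by
    refine ⟨{ toFun := fun P => TrivSqZeroExt.inl (algebraMap A E P) +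
        TrivSqZeroExt.inr (algebraMap A E (pderiv v P))
              map_one' := by simp
              map_zero' := by simp
              map_add' := fun P Q => by
                simp only [map_add, TrivSqZeroExt.inl_add, TrivSqZeroExt.inr_add]
                abel
              map_mul' := fun P Q => by
                apply TrivSqZeroExt.ext
                · simp
                · simp only [map_mul, Derivation.leibniz, smul_eq_mul, map_add,
                    TrivSqZeroExt.snd_add, TrivSqZeroExt.snd_inl, TrivSqZeroExt.snd_inr,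
                    TrivSqZeroExt.snd_mul, TrivSqZeroExt.fst_add, TrivSqZeroExt.fst_inl,
                    TrivSqZeroExt.fst_inr, zero_add, add_zero, MulOpposite.smul_eq_mul_unop,
                    MulOpposite.unop_op]
                  ring }, fun P => rfl⟩
  obtain ⟨δ, hδ⟩ := hδ
  have hker : RingHom.ker ((TrivSqZeroExt.fstHom E E E : TrivSqZeroExt E E →ₐ[E] E) :
      TrivSqZeroExt E E →+* E) ^ 2 = ⊥ := by
    rw [pow_two, eq_bot_iff, Ideal.mul_le]
    intro a ha b hb
    rw [RingHom.mem_ker] at ha hb
    change a.fst = 0 at ha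
    change b.fst = 0 at hb
    rw [Ideal.mem_bot]
    apply TrivSqZeroExt.ext
    · simp [ha]
    · simp [ha, hb]
  obtain ⟨θ, hθ1, hθ2⟩ := exists_lift_sq δ ((TrivSqZeroExt.fstHom E E E :
    TrivSqZeroExt E E →ₐ[E] E) : TrivSqZeroExt E E →+* E)
    (fun x => ⟨TrivSqZeroExt.inl x, by simp⟩) ⟨2, hker⟩ (fun P => by
      rw [hδ]
      simp)
  exact ⟨θ, hθ1, fun P => (hθ2 P).trans (hδ P)⟩

variable {U : Type*} [Fintype σ] [Fintype U] [DecidableEq U]

/-- **The derivatives of a polynomial which is given by a solution of equations.** -/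
theorem deriv_identity (u : U → E) (eq : U → MvPolynomial (σ ⊕ U) K)
    (f : MvPolynomial (σ ⊕ U) K) (F : MvPolynomial σ K)
    (heq : ∀ k, eval₂ ((algebraMap (MvPolynomial σ K) E).comp C)
      (Sum.elim (fun v => algebraMap (MvPolynomial σ K) E (X v)) u) (eq k) = 0)
    (hf : eval₂ ((algebraMap (MvPolynomial σ K) E).comp C)
      (Sum.elim (fun v => algebraMap (MvPolynomial σ K) E (X v)) u) f =
      algebraMap (MvPolynomial σ K) E F)
    (Λ : U → E)
    (hΛ : ∀ j, ∑ k, Λ k * eval₂ ((algebraMap (MvPolynomial σ K) E).comp C)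
        (Sum.elim (fun v => algebraMap (MvPolynomial σ K) E (X v)) u) (pderiv (Sum.inr j) (eq k)) =
      eval₂ ((algebraMap (MvPolynomial σ K) E).comp C)
        (Sum.elim (fun v => algebraMap (MvPolynomial σ K) E (X v)) u) (pderiv (Sum.inr j) f))
    (v : σ) :
    algebraMap (MvPolynomial σ K) E (pderiv v F) =
      eval₂ ((algebraMap (MvPolynomial σ K) E).comp C)
        (Sum.elim (fun v => algebraMap (MvPolynomial σ K) E (X v)) u) (pderiv (Sum.inl v) f) -
      ∑ k, Λ k * eval₂ ((algebraMap (MvPolynomial σ K) E).comp C)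
        (Sum.elim (fun v => algebraMap (MvPolynomial σ K) E (X v)) u)
        (pderiv (Sum.inl v) (eq k)) := by
  set c := (algebraMap (MvPolynomial σ K) E).comp C with hc
  set pt : σ ⊕ U → E := Sum.elim (fun v => algebraMap (MvPolynomial σ K) E (X v)) u with hpt
  obtain ⟨θ, hθ1, hθ2⟩ := exists_dual (E := E) (K := K) v
  set w : σ ⊕ U → E := fun i => (θ (pt i)).snd with hw
  have hθpt : ∀ i, θ (pt i) = TrivSqZeroExt.inl (pt i) + TrivSqZeroExt.inr (w i) := by
    intro i
    apply TrivSqZeroExt.ext
    · simp [hθ1]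
    · simp [hw]
  have hθc : θ.comp c = (TrivSqZeroExt.inlHom E E).comp c := by
    ext a
    · simp only [RingHom.comp_apply, hc]
      rw [hθ2]
      simp
    · simp only [RingHom.comp_apply, hc]
      rw [hθ2]
      simp
  have key : ∀ P : MvPolynomial (σ ⊕ U) K, θ (eval₂ c pt P) =
      TrivSqZeroExt.inl (eval₂ c pt P) +
        TrivSqZeroExt.inr (∑ i, eval₂ c pt (pderiv i P) * w i) := by
    intro P
    rw [hom_eval₂, hθc, ← eval₂_dual]
    congr 1
    funext i
    exact hθpt i
  have hwl : ∀ v', w (Sum.inl v') = if v' = v then 1 else 0 := by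
    intro v'
    change (θ (algebraMap (MvPolynomial σ K) E (X v'))).snd = _
    rw [hθ2]
    simp only [TrivSqZeroExt.snd_add, TrivSqZeroExt.snd_inl, TrivSqZeroExt.snd_inr, zero_add,
      pderiv_X]
    by_cases h : v' = v
    · subst h
      simp
    · rw [if_neg h, Pi.single_apply, if_neg h, map_zero]
  have hsum : ∀ P : MvPolynomial (σ ⊕ U) K, ∑ i, eval₂ c pt (pderiv i P) * w i =
      eval₂ c pt (pderiv (Sum.inl v) P) +
        ∑ j, eval₂ c pt (pderiv (Sum.inr j) P) * w (Sum.inr j) := by
    intro P
    rw [Fintype.sum_sum_type]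
    congr 1
    simp only [hwl, mul_ite, mul_one, mul_zero, Finset.sum_ite_eq', Finset.mem_univ, if_true]
  -- the equations
  have h1 : ∀ k, eval₂ c pt (pderiv (Sum.inl v) (eq k)) +
      ∑ j, eval₂ c pt (pderiv (Sum.inr j) (eq k)) * w (Sum.inr j) = 0 := by
    intro k
    have h := key (eq k)
    rw [heq, map_zero] at h
    have h2 := congrArg TrivSqZeroExt.snd h
    simp only [TrivSqZeroExt.snd_zero, TrivSqZeroExt.snd_add, TrivSqZeroExt.snd_inl,
      TrivSqZeroExt.snd_inr, zero_add] at h2
    rw [hsum] at h2
    exact h2.symm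
  have h2 : algebraMap (MvPolynomial σ K) E (pderiv v F) =
      eval₂ c pt (pderiv (Sum.inl v) f) +
        ∑ j, eval₂ c pt (pderiv (Sum.inr j) f) * w (Sum.inr j) := by
    have h := key f
    rw [hf, hθ2] at h
    have h3 := congrArg TrivSqZeroExt.snd h
    simp only [TrivSqZeroExt.snd_add, TrivSqZeroExt.snd_inl,
      TrivSqZeroExt.snd_inr, zero_add] at h3
    rw [hsum] at h3
    exact h3
  rw [h2, sub_eq_add_neg]
  congr 1
  have h3 : ∀ j, eval₂ c pt (pderiv (Sum.inr j) f) * w (Sum.inr j) =
      ∑ k, Λ k * (eval₂ c pt (pderiv (Sum.inr j) (eq k)) * w (Sum.inr j)) := by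
    intro j
    rw [← hΛ j, Finset.sum_mul]
    apply Finset.sum_congr rfl
    intro k _
    ring
  rw [Finset.sum_congr rfl fun j _ => h3 j, Finset.sum_comm, ← Finset.sum_neg_distrib]
  apply Finset.sum_congr rfl
  intro k _
  rw [← Finset.mul_sum]
  have h4 : ∑ j, eval₂ c pt (pderiv (Sum.inr j) (eq k)) * w (Sum.inr j) =
      - eval₂ c pt (pderiv (Sum.inl v) (eq k)) := by
    rw [eq_neg_iff_add_eq_zero, add_comm]
    exact h1 k
  rw [h4, mul_neg]

end

end Pool.Agent.TH152.NS
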