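import Pool.Agent.TH152.NS.Ext
import Pool.Agent.TH152.NS.Deriv

/-! # Specialization of nondegenerate solutions -/

set_option autoImplicit false
set_option linter.unusedSectionVars false

open MvPolynomial

namespace Pool.Agent.TH152.NS

section

variable {K σ U : Type*} [Field K]

/-- evaluation at a point given by a homomorphism and by the values of the unknowns -/
noncomputable def evp {R : Type*} [CommRing R] (φ : MvPolynomial σ K →+* R) (u : U → R) :
    MvPolynomial (σ ⊕ U) K →+* R :=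
  eval₂Hom (φ.comp C) (Sum.elim (fun v => φ (X v)) u)

/-- the polynomial in the unknowns, the multipliers and one more unknown -/
noncomputable def kp : MvPolynomial (σ ⊕ U) K →+*
    MvPolynomial (U ⊕ (U ⊕ Unit)) (MvPolynomial σ K) :=
  evp C (fun k => X (Sum.inl k))

lemma eval₂_kp {R : Type*} [CommRing R] (φ : MvPolynomial σ K →+* R) (w : U ⊕ (U ⊕ Unit) → R)
    (P : MvPolynomial (σ ⊕ U) K) :
    eval₂ φ w (kp P) = evp φ (fun k => w (Sum.inl k)) P := by
  unfold kp evp
  rw [coe_eval₂Hom, coe_eval₂Hom]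
  have h := hom_eval₂ P ((C : MvPolynomial σ K →+* MvPolynomial (U ⊕ (U ⊕ Unit))
    (MvPolynomial σ K)).comp C) (eval₂Hom φ w)
    (Sum.elim (fun v => C (X v)) fun k => X (Sum.inl k))
  rw [coe_eval₂Hom] at h
  rw [h]
  have e1 : (eval₂Hom φ w).comp ((C : MvPolynomial σ K →+* MvPolynomial (U ⊕ (U ⊕ Unit))
      (MvPolynomial σ K)).comp C) = φ.comp C := by
    ext a
    simp
  have e2 : (fun i => eval₂ φ w (Sum.elim (fun v => C (X v)) (fun k => X (Sum.inl k)) i)) =
      (Sum.elim (fun v => φ (X v)) (fun k => w (Sum.inl k)) : σ ⊕ U → R) := by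
    funext i
    rcases i with v | k
    · simp
    · simp
  rw [e1]
  exact congrArg (fun g => eval₂ (φ.comp C) g P) e2

lemma eval₂_det [Fintype U] [DecidableEq U] {R : Type*} [CommRing R]
    (φ : MvPolynomial σ K →+* R) (w : U ⊕ (U ⊕ Unit) → R) (eq : U → MvPolynomial (σ ⊕ U) K) :
    eval₂ φ w (Matrix.of fun k j => (kp (pderiv (Sum.inr j) (eq k)) :
      MvPolynomial (U ⊕ (U ⊕ Unit)) (MvPolynomial σ K))).det =
      (Matrix.of fun k j => evp φ (fun k => w (Sum.inl k)) (pderiv (Sum.inr j) (eq k))).det := by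
  have h1 := RingHom.map_det (eval₂Hom φ w) (Matrix.of fun k j =>
    (kp (pderiv (Sum.inr j) (eq k)) : MvPolynomial (U ⊕ (U ⊕ Unit)) (MvPolynomial σ K)))
  rw [coe_eval₂Hom] at h1
  rw [h1]
  congr 1
  ext k j
  change eval₂ φ w (kp (pderiv (Sum.inr j) (eq k))) = _
  rw [eval₂_kp]
  rfl

end

variable {K σ U E : Type*} [Field K] [CharZero K] [Fintype σ] [DecidableEq σ] [Fintype U]
  [DecidableEq U] [Field E]
  [Algebra (MvPolynomial σ K) E] [Algebra (FractionRing (MvPolynomial σ K)) E]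
  [IsScalarTower (MvPolynomial σ K) (FractionRing (MvPolynomial σ K)) E]
  [Algebra.IsAlgebraic (FractionRing (MvPolynomial σ K)) E]

/-- **Specialization of a nondegenerate solution.** -/
theorem exists_spec (u : U → E) (eq : U → MvPolynomial (σ ⊕ U) K)
    (f : MvPolynomial (σ ⊕ U) K) (F : MvPolynomial σ K)
    (heq : ∀ k, evp (algebraMap (MvPolynomial σ K) E) u (eq k) = 0)
    (hJ : (Matrix.of fun k j => evp (algebraMap (MvPolynomial σ K) E) u
      (pderiv (Sum.inr j) (eq k))).det ≠ 0)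
    (hf : evp (algebraMap (MvPolynomial σ K) E) u f = algebraMap (MvPolynomial σ K) E F) :
    ∃ G : MvPolynomial σ K, G ≠ 0 ∧ ∀ (Ω : Type*) [Field Ω] [IsAlgClosed Ω]
      (φ : MvPolynomial σ K →+* Ω), φ G ≠ 0 → ∃ u' Λ' : U → Ω,
      (∀ k, evp φ u' (eq k) = 0) ∧
      (Matrix.of fun k j => evp φ u' (pderiv (Sum.inr j) (eq k))).det ≠ 0 ∧
      (∀ j, ∑ k, Λ' k * evp φ u' (pderiv (Sum.inr j) (eq k)) =
        evp φ u' (pderiv (Sum.inr j) f)) ∧
      ∀ v, φ (pderiv v F) = evp φ u' (pderiv (Sum.inl v) f) -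
        ∑ k, Λ' k * evp φ u' (pderiv (Sum.inl v) (eq k)) := by
  set α : MvPolynomial σ K →+* E := algebraMap (MvPolynomial σ K) E with hα
  set J := Matrix.of fun k j => evp α u (pderiv (Sum.inr j) (eq k)) with hJdef
  -- the multipliers
  set Λ : U → E := Matrix.vecMul (fun j => evp α u (pderiv (Sum.inr j) f)) J⁻¹ with hΛdef
  have hΛ : ∀ j, ∑ k, Λ k * evp α u (pderiv (Sum.inr j) (eq k)) =
      evp α u (pderiv (Sum.inr j) f) := by
    intro j
    have h1 : Matrix.vecMul Λ J = fun j => evp α u (pderiv (Sum.inr j) f) := by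
      rw [hΛdef, Matrix.vecMul_vecMul, Matrix.nonsing_inv_mul _ (isUnit_iff_ne_zero.mpr hJ),
        Matrix.vecMul_one]
    exact congrFun h1 j
  have hder : ∀ v, α (pderiv v F) = evp α u (pderiv (Sum.inl v) f) -
      ∑ k, Λ k * evp α u (pderiv (Sum.inl v) (eq k)) := fun v =>
    deriv_identity u eq f F heq hf Λ hΛ v
  -- all values
  set w : U ⊕ (U ⊕ Unit) → E := Sum.elim u (Sum.elim Λ (fun _ => J.det⁻¹)) with hw
  have hinj : Function.Injective α := by
    have h1 : α = (algebraMap (FractionRing (MvPolynomial σ K)) E).comp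
        (algebraMap (MvPolynomial σ K) (FractionRing (MvPolynomial σ K))) :=
      IsScalarTower.algebraMap_eq (MvPolynomial σ K) (FractionRing (MvPolynomial σ K)) E
    rw [h1]
    exact (algebraMap (FractionRing (MvPolynomial σ K)) E).injective.comp
      (IsFractionRing.injective _ _)
  have hint : ∀ k, IsAlgebraic (MvPolynomial σ K) (w k) := by
    intro k
    have h1 : IsAlgebraic (FractionRing (MvPolynomial σ K)) (w k) :=
      Algebra.IsAlgebraic.isAlgebraic _
    exact (IsFractionRing.isAlgebraic_iff (MvPolynomial σ K)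
      (FractionRing (MvPolynomial σ K)) E).mpr h1
  obtain ⟨G, hG, hspec⟩ := spec_point hinj w hint
  refine ⟨G, hG, ?_⟩
  intro Ω _ _ φ hφ
  obtain ⟨w', hw'⟩ := hspec Ω φ hφ
  have hwu : (fun k => w (Sum.inl k)) = u := rfl
  refine ⟨fun k => w' (Sum.inl k), fun k => w' (Sum.inr (Sum.inl k)), ?_, ?_, ?_, ?_⟩
  · intro k
    have h1 := hw' (kp (eq k)) (by rw [eval₂_kp, hwu]; exact heq k)
    rw [eval₂_kp] at h1
    exact h1
  · -- the determinant
    have h1 := hw' ((Matrix.of fun k j => (kp (pderiv (Sum.inr j) (eq k)) :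
        MvPolynomial (U ⊕ (U ⊕ Unit)) (MvPolynomial σ K))).det *
          X (Sum.inr (Sum.inr ())) - 1) (by
      rw [eval₂_sub, eval₂_mul, eval₂_X, eval₂_one, eval₂_det, hwu]
      change J.det * J.det⁻¹ - 1 = 0
      rw [mul_inv_cancel₀ hJ, sub_self])
    rw [eval₂_sub, eval₂_mul, eval₂_X, eval₂_one, eval₂_det, sub_eq_zero] at h1
    exact left_ne_zero_of_mul (h1.trans_ne one_ne_zero)
  · intro j
    have h1 := hw' (∑ k, X (Sum.inr (Sum.inl k)) * kp (pderiv (Sum.inr j) (eq k)) -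
      kp (pderiv (Sum.inr j) f)) (by
      rw [eval₂_sub, eval₂_sum, eval₂_kp, hwu, sub_eq_zero, ← hΛ j]
      apply Finset.sum_congr rfl
      intro k _
      rw [eval₂_mul, eval₂_X, eval₂_kp, hwu]
      rfl)
    rw [eval₂_sub, eval₂_sum, eval₂_kp, sub_eq_zero] at h1
    rw [← h1]
    apply Finset.sum_congr rfl
    intro k _
    rw [eval₂_mul, eval₂_X, eval₂_kp]
  · intro v
    have h1 := hw' (C (pderiv v F) - (kp (pderiv (Sum.inl v) f) -
      ∑ k, X (Sum.inr (Sum.inl k)) * kp (pderiv (Sum.inl v) (eq k)))) (by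
      rw [eval₂_sub, eval₂_sub, eval₂_sum, eval₂_kp, hwu, eval₂_C, sub_eq_zero]
      refine (hder v).trans ?_
      congr 1
      apply Finset.sum_congr rfl
      intro k _
      rw [eval₂_mul, eval₂_X, eval₂_kp, hwu]
      rfl)
    rw [eval₂_sub, eval₂_sub, eval₂_sum, eval₂_kp, eval₂_C, sub_eq_zero] at h1
    rw [h1]
    congr 1
    apply Finset.sum_congr rfl
    intro k _
    rw [eval₂_mul, eval₂_X, eval₂_kp]

end Pool.Agent.TH152.NS
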