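import Pool.Agent.TH152.NS.Sys2
import Pool.Agent.TH152.NS.Spec
import Pool.Agent.TH152.DG.Perturb

/-! # Limits of polynomials given by nondegenerate systems: the dimension inequality -/

set_option autoImplicit false
set_option linter.unusedSectionVars false

open Module MvPolynomial

namespace Pool.Agent.TH152.NS

open Pool.Agent.TH152.DG (sp2 sp2_fg sp2_pow evl xs exists_perturb)
open Pool.Agent.H546R2.SL (Nm exists_degree_bound spanning finrank_restrict Ex finite_Ex mem_Ex)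
open Pool.Agent.H632R2.Border

/-- **The dimension inequality after a substitution.** -/
theorem subst_dim {L Ω σ ι H Z : Type*} [Field L] [Field Ω] [Algebra L Ω] [Fintype σ]
    [DecidableEq σ] [Fintype ι] [Fintype H] [Fintype Z] [DecidableEq H] [DecidableEq Z]
    [Algebra (MvPolynomial ι L) Ω] [IsScalarTower L (MvPolynomial ι L) Ω]
    (hinj : Function.Injective (algebraMap (MvPolynomial ι L) Ω))
    (S' : σ → MvPolynomial ι L) (hS' : ∀ v, (S' v).totalDegree ≤ 1) (δ : ℕ) (hδ : 1 ≤ δ)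
    {eq : H ⊕ Z → MvPolynomial (σ ⊕ (H ⊕ Z)) L} {f : MvPolynomial (σ ⊕ (H ⊕ Z)) L}
    (heqH : ∀ i, Bideg δ 2 (eq (Sum.inl i))) (heqZ : ∀ b, Bideg δ 1 (eq (Sum.inr b)))
    (hfd : Bideg δ 2 f)
    (F : MvPolynomial σ L) (u Λ : H ⊕ Z → Ω)
    (heq : ∀ k, aeval (Sum.elim (fun v => algebraMap (MvPolynomial ι L) Ω (S' v)) u)
      (eq k) = 0)
    (hJ : (Matrix.of fun k j => aeval (Sum.elim (fun v => algebraMap (MvPolynomial ι L) Ω (S' v))
      u) (pderiv (Sum.inr j) (eq k))).det ≠ 0)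
    (hΛ : ∀ j, ∑ k, Λ k * aeval (Sum.elim (fun v => algebraMap (MvPolynomial ι L) Ω (S' v)) u)
      (pderiv (Sum.inr j) (eq k)) =
      aeval (Sum.elim (fun v => algebraMap (MvPolynomial ι L) Ω (S' v)) u)
        (pderiv (Sum.inr j) f))
    (hder : ∀ v, algebraMap (MvPolynomial ι L) Ω (aeval S' (pderiv v F)) =
      aeval (Sum.elim (fun v => algebraMap (MvPolynomial ι L) Ω (S' v)) u)
        (pderiv (Sum.inl v) f) -
      ∑ k, Λ k * aeval (Sum.elim (fun v => algebraMap (MvPolynomial ι L) Ω (S' v)) u)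
        (pderiv (Sum.inl v) (eq k))) :
    ∃ W : Submodule L (MvPolynomial ι L), W.FG ∧ restrictTotalDegree ι L 1 ≤ W ∧
      (∀ v, aeval S' (pderiv v F) ∈ W) ∧
      ∀ τ u' r : ℕ,
      ((u' + (Fintype.card H + Fintype.card H)).choose (Fintype.card H + Fintype.card H) *
        (r + (Fintype.card Z + Fintype.card Z)).choose (Fintype.card Z + Fintype.card Z)) *
        finrank L ↥(W ^ τ) ≤
      (Fintype.card ι + (Fintype.card H + Fintype.card H) + 1).multichoose
          (δ * τ + (δ * u' + (δ + 1) * r)) *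
        (Fintype.card Z + Fintype.card Z + 1).multichoose (2 * τ + (2 * u' + r)) := by
  classical
  set ψ : MvPolynomial ι L →ₐ[L] Ω := (Algebra.ofId (MvPolynomial ι L) Ω).restrictScalars L
    with hψ
  have hψinj : Function.Injective ψ := hinj
  set x : ι → Ω := fun i => ψ (X i) with hx
  set xt : σ → Ω := fun v => algebraMap (MvPolynomial ι L) Ω (S' v) with hxt
  have hxm : ∀ v, xt v ∈ xs L x := fun v =>
    Pool.Agent.W944.algebraMap_mem_xsp (B := Ω) (S' v) (hS' v)
  set M : Submodule L Ω := (sp2 (L := L) (Zt := Fin 0) (Zm := H ⊕ H) (Zl := Z ⊕ Z) x δ 2).map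
    (evl L (val u Λ)).toLinearMap with hM
  have hMfg : M.FG := (sp2_fg x δ 2).map _
  have : FiniteDimensional L ↥M := Module.Finite.iff_fg.mpr hMfg
  set W : Submodule L (MvPolynomial ι L) := M.comap ψ.toLinearMap with hW
  have hWM : W.map ψ.toLinearMap ≤ M := Submodule.map_comap_le _ _
  have hWfg : W.FG := by
    apply Submodule.fg_of_fg_map_injective ψ.toLinearMap hψinj
    have : FiniteDimensional L ↥(W.map ψ.toLinearMap) :=
      Submodule.finiteDimensional_of_le hWM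
    exact Module.Finite.iff_fg.mp this
  refine ⟨W, hWfg, ?_, ?_, ?_⟩
  · intro p hp
    rw [hW, Submodule.mem_comap]
    apply xs_le_map x u Λ δ hδ
    exact Pool.Agent.W944.algebraMap_mem_xsp (B := Ω) p ((mem_restrictTotalDegree _ _ _).mp hp)
  · intro v
    rw [hW, Submodule.mem_comap]
    change algebraMap (MvPolynomial ι L) Ω (aeval S' (pderiv v F)) ∈ M
    rw [hder v]
    exact der_mem_map x xt hxm δ hδ heqH heqZ hfd u Λ v
  · intro τ u' r
    have h1 := sys_dim x xt hxm δ hδ heqH heqZ hfd heq hJ hΛ u' r (δ * τ) (2 * τ)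
    refine le_trans ?_ h1
    apply Nat.mul_le_mul_left
    have h2 : finrank L ↥(W ^ τ) = finrank L ↥((W ^ τ).map ψ.toLinearMap) :=
      (LinearEquiv.finrank_eq (Submodule.equivMapOfInjective _ hψinj _))
    rw [h2, Submodule.map_pow]
    have h3 : (W.map ψ.toLinearMap) ^ τ ≤ (sp2 (L := L) (Zt := Fin 0) (Zm := H ⊕ H)
        (Zl := Z ⊕ Z) x (δ * τ) (2 * τ)).map (evl L (val u Λ)).toLinearMap := by
      have h4 : (sp2 (L := L) (Zt := Fin 0) (Zm := H ⊕ H) (Zl := Z ⊕ Z) x (δ * τ) (2 * τ)) =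
          (sp2 x δ 2) ^ τ := by
        rw [sp2_pow]
      rw [h4, Submodule.map_pow]
      exact pow_le_pow_left' hWM τ
    have : FiniteDimensional L ↥((sp2 (L := L) (Zt := Fin 0) (Zm := H ⊕ H)
        (Zl := Z ⊕ Z) x (δ * τ) (2 * τ)).map (evl L (val u Λ)).toLinearMap) :=
      Module.Finite.iff_fg.mpr ((sp2_fg x _ _).map _)
    exact Submodule.finrank_mono h3

variable {Ω L : Type*} [Field Ω] [Field L] {σ ι : Type*}
  {O : ValuationSubring L} {φ : O →+* Ω} {j : Ω →+* O}

/-- **The dimension inequality for limits.** -/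
theorem border_dim [IsAlgClosed Ω] [CharZero L] [Fintype ι] [Fintype σ] [DecidableEq σ]
    (hj : ∀ c, φ (j c) = c)
    (hinf : ∀ c : σ → L, ∃ T : Set L, T.Infinite ∧ ∀ t ∈ T, ∀ v, ∃ h : t * c v ∈ O,
      φ ⟨t * c v, h⟩ = 0)
    (S : σ → MvPolynomial ι Ω) (hS : ∀ v, (S v).totalDegree ≤ 1) (f₀ : MvPolynomial σ Ω)
    {V : Type*} (y : V → MvPolynomial ι Ω) (e : ℕ) (he : 0 < e)
    (hy : ∀ v, (y v).IsHomogeneous e)
    (hz : ∀ x : ι → Ω, (∀ v, eval x (y v) = 0) → x = 0)
    (hyS : ∀ v, ∃ (c : Ω) (u : σ), y v = C c * aeval S (pderiv u f₀))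
    (hι : 0 < Fintype.card ι)
    {H Z E : Type*} [Fintype H] [Fintype Z] [DecidableEq H] [DecidableEq Z] [Field E]
    [Algebra (MvPolynomial σ L) E] [Algebra (FractionRing (MvPolynomial σ L)) E]
    [IsScalarTower (MvPolynomial σ L) (FractionRing (MvPolynomial σ L)) E]
    [Algebra.IsAlgebraic (FractionRing (MvPolynomial σ L)) E] (δ : ℕ) (hδ : 1 ≤ δ)
    {eq : H ⊕ Z → MvPolynomial (σ ⊕ (H ⊕ Z)) L} {f : MvPolynomial (σ ⊕ (H ⊕ Z)) L}
    (heqH : ∀ i, Bideg δ 2 (eq (Sum.inl i))) (heqZ : ∀ b, Bideg δ 1 (eq (Sum.inr b)))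
    (hfd : Bideg δ 2 f)
    (u : H ⊕ Z → E)
    (heq : ∀ k, evp (algebraMap (MvPolynomial σ L) E) u (eq k) = 0)
    (hJ : (Matrix.of fun k j => evp (algebraMap (MvPolynomial σ L) E) u
      (pderiv (Sum.inr j) (eq k))).det ≠ 0)
    (F : MvPolynomial σ O)
    (hf : evp (algebraMap (MvPolynomial σ L) E) u f =
      algebraMap (MvPolynomial σ L) E (map O.subtype F))
    (hf₀ : map φ F = f₀) :
    ∃ c₀ : ℕ, ∀ τ u' r : ℕ,
      ((u' + (Fintype.card H + Fintype.card H)).choose (Fintype.card H + Fintype.card H) *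
        (r + (Fintype.card Z + Fintype.card Z)).choose (Fintype.card Z + Fintype.card Z)) *
        (e * τ + Fintype.card ι).choose (Fintype.card ι) ≤
      (Fintype.card ι + (Fintype.card H + Fintype.card H) + 1).multichoose
          (δ * (τ + c₀) + (δ * u' + (δ + 1) * r)) *
        (Fintype.card Z + Fintype.card Z + 1).multichoose (2 * (τ + c₀) + (2 * u' + r)) := by
  classical
  have : Infinite L := inferInstance
  obtain ⟨G, hG, hspec⟩ := exists_spec u eq f (map O.subtype F) heq hJ hf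
  obtain ⟨S1, hS1, hS1d, hS1n⟩ := exists_perturb hj hinf S hS G hG
  set S' : σ → MvPolynomial ι L := fun v => map O.subtype (S1 v) with hS'
  have hS'd : ∀ v, (S' v).totalDegree ≤ 1 := fun v => (totalDegree_map_le _ _).trans (hS1d v)
  set Ω' := AlgebraicClosure (FractionRing (MvPolynomial ι L)) with hΩ'
  have hinj : Function.Injective (algebraMap (MvPolynomial ι L) Ω') := by
    rw [IsScalarTower.algebraMap_eq (MvPolynomial ι L) (FractionRing (MvPolynomial ι L)) Ω']
    exact (algebraMap (FractionRing (MvPolynomial ι L)) Ω').injective.comp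
      (IsFractionRing.injective _ _)
  set φ' : MvPolynomial σ L →+* Ω' := (algebraMap (MvPolynomial ι L) Ω').comp
    ((aeval S' : MvPolynomial σ L →ₐ[L] MvPolynomial ι L) : MvPolynomial σ L →+* MvPolynomial ι L)
    with hφ'
  have hφG : φ' G ≠ 0 := (map_ne_zero_iff _ hinj).mpr hS1n
  obtain ⟨u', Λ', h1, h2, h3, h4⟩ := hspec Ω' φ' hφG
  have hev : ∀ P : MvPolynomial (σ ⊕ (H ⊕ Z)) L, evp φ' u' P =
      aeval (Sum.elim (fun v => algebraMap (MvPolynomial ι L) Ω' (S' v)) u') P := by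
    intro P
    unfold evp
    rw [coe_eval₂Hom, aeval_def]
    have e1 : φ'.comp C = algebraMap L Ω' := by
      ext a
      rw [hφ']
      simp only [RingHom.comp_apply, RingHom.coe_coe]
      rw [← algebraMap_eq, AlgHom.commutes, ← IsScalarTower.algebraMap_apply]
    have e2 : (fun v => φ' (X v)) = fun v => algebraMap (MvPolynomial ι L) Ω' (S' v) := by
      funext v
      rw [hφ']
      simp
    rw [e1, e2]
  simp only [hev] at h1 h2 h3 h4
  obtain ⟨W, hWfg, hW1, hWd, hWdim⟩ := subst_dim hinj S' hS'd δ hδ heqH heqZ hfd (map O.subtype F)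
    u' Λ' h1 h2 h3 (fun v => h4 v)
  have hyW : ∀ v, y v ∈ spec O φ j hj W := by
    intro v
    obtain ⟨c, w, hcu⟩ := hyS v
    rw [hcu, ← smul_eq_C_mul]
    apply Submodule.smul_mem
    refine ⟨aeval S1 (pderiv w F), ?_, ?_⟩
    · have h1 := hWd w
      rw [map_aeval_comm, ← pderiv_map]
      exact h1
    · rw [map_aeval_comm, ← pderiv_map, hf₀]
      have h2 : (fun v => map φ (S1 v)) = S := funext hS1
      rw [h2]
  obtain ⟨M, hM⟩ := exists_degree_bound y hz
  have hspan := spanning y e he hy M hM _ (restrict_le_spec (O := O) (φ := φ) (j := j) (hj := hj)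
    hW1) hyW
  refine ⟨M + e, fun τ a r => ?_⟩
  refine le_trans ?_ (hWdim (τ + (M + e)) a r)
  apply Nat.mul_le_mul_left
  have h1 := hspan (e * τ)
  rw [Nat.mul_div_cancel_left _ he] at h1
  have h2 := h1.trans (spec_pow_le W (τ + (M + e)))
  have h3 := spec_fg (O := O) (φ := φ) (j := j) (hj := hj) (hWfg.pow (τ + (M + e)))
  have : FiniteDimensional Ω ↥(spec O φ j hj (W ^ (τ + (M + e)))) :=
    Module.Finite.iff_fg.mpr h3.1
  calc (e * τ + Fintype.card ι).choose (Fintype.card ι) ≤ Nm ι (e * τ) :=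
        Pool.Agent.W944.Cx.Nm_ge hι _
    _ = finrank Ω ↥(restrictTotalDegree ι Ω (e * τ)) := (finrank_restrict _).symm
    _ ≤ finrank Ω ↥(spec O φ j hj (W ^ (τ + (M + e)))) := Submodule.finrank_mono h2
    _ ≤ _ := h3.2

end Pool.Agent.TH152.NS
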