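import Pool.Agent.TH152.DG.Sys2

/-! # The main inequality for dimensions, for two kinds of unknowns -/

set_option autoImplicit false
set_option linter.unusedSectionVars false

open Module MvPolynomial

namespace Pool.Agent.TH152.NS

open Pool.Agent.TH152.DG

variable {L E : Type*} [Field L] [Field E] [Algebra L E]
variable {ι Zt Zm Zl : Type*} [Fintype ι] [Fintype Zt] [Fintype Zm] [Fintype Zl]
  [DecidableEq Zt] [DecidableEq Zm] [DecidableEq Zl]

/-- **The main inequality for dimensions.** -/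
theorem main_dim2 (x : ι → E) (R : Zt ⊕ (Zm ⊕ Zl) → MvPolynomial (Zt ⊕ (Zm ⊕ Zl)) E)
    (ζ : Zt ⊕ (Zm ⊕ Zl) → E) (h0 : ∀ z, eval ζ (R z) = 0)
    (hJ : ∀ v : Zt ⊕ (Zm ⊕ Zl) → E, (∀ z, (ev2 ζ v (R z)).snd = 0) → v = 0)
    (N : Zt → ℕ) (α β α₂ β₂ : ℕ)
    (hRt : ∀ z, R (Sum.inl z) ∈ sp2 (L := L) x (N z) 0)
    (hRm : ∀ z, R (Sum.inr (Sum.inl z)) ∈ sp2 (L := L) x α β)
    (hRl : ∀ z, R (Sum.inr (Sum.inr z)) ∈ sp2 (L := L) x α₂ β₂) (T : Zt → ℕ) (u r a b : ℕ) :
    ((∏ z, (T z + 1)) * (u + Fintype.card Zm).choose (Fintype.card Zm) *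
      (r + Fintype.card Zl).choose (Fintype.card Zl)) *
      finrank L ↥((sp2 (L := L) (Zt := Zt) (Zm := Zm) (Zl := Zl) x a b).map
        (evl L ζ).toLinearMap) ≤
    (Fintype.card ι + (Fintype.card Zt + Fintype.card Zm) + 1).multichoose
        (a + (∑ z, N z * T z + α * u + α₂ * r)) *
      (Fintype.card Zl + 1).multichoose (b + (β * u + β₂ * r)) := by
  classical
  obtain ⟨Fm, hFm, hFm2⟩ := exists_expo Zm u
  obtain ⟨Fl, hFl, hFl2⟩ := exists_expo Zl r
  set Ft : Finset (Zt → ℕ) := Fintype.piFinset fun z => Finset.range (T z + 1) with hFt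
  have hFt2 : Ft.card = ∏ z, (T z + 1) := by
    rw [hFt, Fintype.card_piFinset]
    simp
  set J : Finset (Zt ⊕ (Zm ⊕ Zl) → ℕ) := (Ft ×ˢ (Fm ×ˢ Fl)).image
    (fun p => Sum.elim p.1 (Sum.elim p.2.1 p.2.2)) with hJdef
  have hJcard : J.card = Ft.card * (Fm.card * Fl.card) := by
    rw [hJdef, Finset.card_image_of_injective, Finset.card_product, Finset.card_product]
    intro p q h
    simp only at h
    have h1 : p.1 = q.1 := by
      funext z; exact congrFun h (Sum.inl z)
    have h2 : p.2.1 = q.2.1 := by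
      funext z; exact congrFun h (Sum.inr (Sum.inl z))
    have h3 : p.2.2 = q.2.2 := by
      funext z; exact congrFun h (Sum.inr (Sum.inr z))
    exact Prod.ext h1 (Prod.ext h2 h3)
  have key := card_mul_finrank_le R ζ h0 hJ (sp2 (L := L) x a b)
    (sp2 (L := L) x (a + (∑ z, N z * T z + α * u + α₂ * r)) (b + (β * u + β₂ * r)))
    (sp2_fg x a b) (sp2_fg x _ _) J (by
      intro j hj w hw
      obtain ⟨⟨jt, jm, jl⟩, hp, rfl⟩ := Finset.mem_image.mp hj
      rw [Finset.mem_product, Finset.mem_product] at hp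
      obtain ⟨ht, hm, hl⟩ := hp
      simp only at ht hm hl ⊢
      rw [Fintype.prod_sum_type, Fintype.prod_sum_type]
      simp only [Sum.elim_inl, Sum.elim_inr]
      have e1 : ∏ z, R (Sum.inl z) ^ jt z ∈ sp2 (L := L) x (∑ z, N z * jt z) (∑ z : Zt, 0 * jt z) := by
        apply prod_mem_sp2
        intro z _
        rw [← sp2_pow]
        exact Submodule.pow_mem_pow _ (hRt z) _
      have e2 : ∏ z, R (Sum.inr (Sum.inl z)) ^ jm z ∈
          sp2 (L := L) x (∑ z, α * jm z) (∑ z, β * jm z) := by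
        apply prod_mem_sp2
        intro z _
        rw [← sp2_pow]
        exact Submodule.pow_mem_pow _ (hRm z) _
      have e3 : ∏ z, R (Sum.inr (Sum.inr z)) ^ jl z ∈
          sp2 (L := L) x (∑ z, α₂ * jl z) (∑ z, β₂ * jl z) := by
        apply prod_mem_sp2
        intro z _
        rw [← sp2_pow]
        exact Submodule.pow_mem_pow _ (hRl z) _
      have e4 := Submodule.mul_mem_mul (Submodule.mul_mem_mul e1 (Submodule.mul_mem_mul e2 e3)) hw
      rw [sp2_mul, sp2_mul, sp2_mul] at e4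
      refine sp2_mono x ?_ ?_ e4
      · have h1 : ∑ z, N z * jt z ≤ ∑ z, N z * T z := by
          apply Finset.sum_le_sum
          intro z _
          apply Nat.mul_le_mul_left
          rw [hFt, Fintype.mem_piFinset] at ht
          have := Finset.mem_range.mp (ht z)
          omega
        have h2 : ∑ z, α * jm z ≤ α * u := by
          rw [← Finset.mul_sum]
          exact Nat.mul_le_mul_left _ (hFm jm hm)
        have h3 : ∑ z, α₂ * jl z ≤ α₂ * r := by
          rw [← Finset.mul_sum]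
          exact Nat.mul_le_mul_left _ (hFl jl hl)
        omega
      · have h1 : ∑ z : Zt, 0 * jt z = 0 := by simp
        have h2 : ∑ z, β * jm z ≤ β * u := by
          rw [← Finset.mul_sum]
          exact Nat.mul_le_mul_left _ (hFm jm hm)
        have h3 : ∑ z, β₂ * jl z ≤ β₂ * r := by
          rw [← Finset.mul_sum]
          exact Nat.mul_le_mul_left _ (hFl jl hl)
        omega)
  refine le_trans ?_ (key.trans (finrank_sp2 x _ _))
  apply Nat.mul_le_mul_right
  rw [hJcard, hFt2, mul_assoc]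
  exact Nat.mul_le_mul_left _ (Nat.mul_le_mul hFm2 hFl2)

end Pool.Agent.TH152.NS
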