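import Mathlib

/-! # Specialization of algebraic functions -/

set_option autoImplicit false

open MvPolynomial

namespace Pool.Agent.TH152.NS

variable {A E : Type*} [CommRing A] [Field E] [Algebra A E]

/-- homomorphisms to algebraically closed fields extend to the integral closure -/
lemma exists_ext_integral (hinj : Function.Injective (algebraMap A E)) {Ω : Type*} [Field Ω]
    [IsAlgClosed Ω] (φ : A →+* Ω) :
    ∃ φ₁ : integralClosure A E →+* Ω, ∀ a, φ₁ (algebraMap A (integralClosure A E) a) = φ a := by
  set B := integralClosure A E with hB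
  have hP : (RingHom.ker φ).IsPrime := RingHom.ker_isPrime φ
  have hinjB : Function.Injective (algebraMap A B) := by
    intro a b h
    apply hinj
    exact congrArg (fun x : B => (x : E)) h
  obtain ⟨Q, hQ, hQc⟩ := Ideal.exists_ideal_over_prime_of_isIntegral_of_isDomain (R := A) (S := B)
    (RingHom.ker φ) (by
      rw [(RingHom.injective_iff_ker_eq_bot _).mp hinjB]
      exact bot_le)
  set P := Q.comap (algebraMap A B) with hPdef
  have hPp : P.IsPrime := Ideal.comap_isPrime _ _
  let f : A ⧸ P →+* Ω := Ideal.Quotient.lift P φ (fun a ha => by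
    rw [hQc] at ha
    exact ha)
  have hf : Function.Injective f := by
    apply RingHom.lift_injective_of_ker_le_ideal
    rw [hQc]
  let _ : Algebra (A ⧸ P) Ω := f.toAlgebra
  have h1 : Module.IsTorsionFree (A ⧸ P) Ω := by
    rw [Module.isTorsionFree_iff_algebraMap_injective]
    exact hf
  have h2 : Module.IsTorsionFree (A ⧸ P) (B ⧸ Q) := by
    rw [Module.isTorsionFree_iff_algebraMap_injective]
    exact Ideal.algebraMap_quotient_injective
  have h4 : Algebra.IsIntegral (A ⧸ P) (B ⧸ Q) := Algebra.IsIntegral.quotient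
  have h5 : Algebra.IsAlgebraic (A ⧸ P) (B ⧸ Q) := Algebra.IsIntegral.isAlgebraic
  let g : B ⧸ Q →ₐ[A ⧸ P] Ω := IsAlgClosed.lift
  refine ⟨(g : B ⧸ Q →+* Ω).comp (Ideal.Quotient.mk Q), fun a => ?_⟩
  have h3 : Ideal.Quotient.mk Q (algebraMap A B a) =
      algebraMap (A ⧸ P) (B ⧸ Q) (Ideal.Quotient.mk P a) := rfl
  rw [RingHom.comp_apply, h3]
  change g _ = _
  rw [AlgHom.commutes]
  change f _ = _
  exact Ideal.Quotient.lift_mk _ _ _

/-- **Specialization of algebraic functions.** -/
theorem spec_point [IsDomain A] (hinj : Function.Injective (algebraMap A E)) {U : Type*}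
    [Finite U] (u : U → E) (hu : ∀ k, IsAlgebraic A (u k)) :
    ∃ G : A, G ≠ 0 ∧ ∀ (Ω : Type*) [Field Ω] [IsAlgClosed Ω] (φ : A →+* Ω), φ G ≠ 0 →
      ∃ u' : U → Ω, ∀ P : MvPolynomial U A, eval₂ (algebraMap A E) u P = 0 →
        eval₂ φ u' P = 0 := by
  classical
  have := Fintype.ofFinite U
  choose y hy0 hy using fun k => (hu k).exists_integral_multiple
  set G := ∏ k, y k with hG
  refine ⟨G, Finset.prod_ne_zero_iff.mpr fun k _ => hy0 k, ?_⟩
  intro Ω _ _ φ hφ
  set B := integralClosure A E with hB
  obtain ⟨φ₁, hφ₁⟩ := exists_ext_integral hinj φ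
  have hb : ∀ k, ∃ b : B, (b : E) = algebraMap A E G * u k := by
    intro k
    have h1 : IsIntegral A (algebraMap A E G * u k) := by
      have h2 : algebraMap A E G * u k =
          algebraMap A E (∏ j ∈ Finset.univ.erase k, y j) * (y k • u k) := by
        rw [hG, ← Finset.mul_prod_erase _ y (Finset.mem_univ k), map_mul, Algebra.smul_def]
        ring
      rw [h2]
      exact isIntegral_algebraMap.mul (hy k)
    exact ⟨⟨_, h1⟩, rfl⟩
  choose b hb using hb
  -- the localization at `G`
  set g : B := algebraMap A B G with hg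
  set R := Localization.Away g with hR
  have hgE : (g : E) = algebraMap A E G := rfl
  have hG0 : G ≠ 0 := Finset.prod_ne_zero_iff.mpr fun k _ => hy0 k
  have hgE0 : algebraMap A E G ≠ 0 := by
    intro h
    apply hG0
    apply hinj
    rw [h, map_zero]
  let i : R →+* E := IsLocalization.Away.lift (S := R) g (g := (algebraMap B E)) (by
    rw [isUnit_iff_ne_zero]
    exact hgE0)
  have hi : ∀ a : B, i (algebraMap B R a) = (a : E) := fun a =>
    IsLocalization.Away.lift_eq g _ a
  have hiinj : Function.Injective i := by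
    rw [injective_iff_map_eq_zero]
    intro r hr
    obtain ⟨n, a, ha⟩ := IsLocalization.Away.surj g r
    have h1 : i (r * algebraMap B R g ^ n) = (a : E) := by rw [ha, hi]
    rw [map_mul, hr, zero_mul] at h1
    have h2 : a = 0 := by
      apply Subtype.ext
      exact h1.symm
    rw [h2, map_zero] at ha
    have h3 : IsUnit (algebraMap B R g ^ n) := (IsLocalization.Away.algebraMap_isUnit g).pow n
    exact (IsUnit.mul_left_eq_zero h3).mp ha
  let ψ : R →+* Ω := IsLocalization.Away.lift (S := R) g (g := φ₁) (by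
    rw [isUnit_iff_ne_zero, hg, hφ₁]
    exact hφ)
  have hψ : ∀ a : B, ψ (algebraMap B R a) = φ₁ a := fun a => IsLocalization.Away.lift_eq g _ a
  -- the elements
  have hw : ∀ k, ∃ w : R, i w = u k := by
    intro k
    refine ⟨algebraMap B R (b k) * IsLocalization.Away.invSelf g, ?_⟩
    have h1 : i (IsLocalization.Away.invSelf (S := R) g) * (algebraMap A E G) = 1 := by
      rw [← hgE, ← hi, ← map_mul, mul_comm, IsLocalization.Away.mul_invSelf, map_one]
    rw [map_mul, hi, hb]
    have h2 : i (IsLocalization.Away.invSelf (S := R) g) = (algebraMap A E G)⁻¹ :=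
      eq_inv_of_mul_eq_one_left h1
    rw [h2]
    field_simp
  choose w hw using hw
  refine ⟨fun k => ψ (w k), fun P hP => ?_⟩
  set α : A →+* R := (algebraMap B R).comp (algebraMap A B) with hα
  have h1 : i (eval₂ α w P) = eval₂ (algebraMap A E) u P := by
    rw [hom_eval₂]
    have e1 : i.comp α = algebraMap A E := by
      ext a
      change i (algebraMap B R (algebraMap A B a)) = _
      rw [hi]
      rfl
    have e2 : (fun k => i (w k)) = u := funext hw
    rw [e1]
    exact congrArg (fun v => eval₂ (algebraMap A E) v P) e2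
  rw [hP] at h1
  have h2 : eval₂ α w P = 0 := hiinj (by rw [h1, map_zero])
  have h3 : ψ (eval₂ α w P) = eval₂ φ (fun k => ψ (w k)) P := by
    rw [hom_eval₂]
    congr 1
    ext a
    change ψ (algebraMap B R (algebraMap A B a)) = φ a
    rw [hψ, hφ₁]
  rw [← h3, h2, map_zero]

end Pool.Agent.TH152.NS
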