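import Pool.Agent.W944.CircLead
import Pool.Agent.W944.Smooth

/-! # Systems: comparison of the leading coefficients -/

set_option autoImplicit false
set_option linter.unusedSectionVars false

namespace Pool.Agent.TH152.NS

open Pool.Agent.W944 (multichoose_succ)
open Pool.Agent.W944.Cx (leading_prod)

/-- the explicit inequality -/
theorem explicit (e n a b c₀ ρ δ : ℕ)
    (h : ∀ τ u r : ℕ, ((u + a).choose a * (r + b).choose b) * (e * τ + n).choose n ≤
      (n + a + 1).multichoose (δ * (τ + c₀) + (δ * u + (δ + 1) * r)) *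
        (b + 1).multichoose (2 * (τ + c₀) + (2 * u + r))) :
    (e : ℝ) ^ n * (ρ : ℝ) ^ b ≤
      (2 * δ + (δ + 1) * ρ : ℝ) ^ (n + a) * (4 + ρ : ℝ) ^ b := by
  have hlead := leading_prod ![1, ρ, e] ![a, b, n]
    ![2 * δ + (δ + 1) * ρ, 4 + ρ] ![δ * c₀, 2 * c₀] ![n + a, b] (by
      rw [Fin.sum_univ_three, Fin.sum_univ_two]
      change a + b + n = n + a + b
      ring) (by
      intro τ _
      rw [Fin.prod_univ_three, Fin.prod_univ_two]
      change (1 * τ + a).choose a * (ρ * τ + b).choose b * (e * τ + n).choose n ≤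
        (n + a + (δ * c₀ + (2 * δ + (δ + 1) * ρ) * τ)).choose (n + a) *
        (b + (2 * c₀ + (4 + ρ) * τ)).choose b
      have h1 := h τ τ (ρ * τ)
      rw [multichoose_succ, multichoose_succ] at h1
      have e1 : δ * (τ + c₀) + (δ * τ + (δ + 1) * (ρ * τ)) =
          δ * c₀ + (2 * δ + (δ + 1) * ρ) * τ := by ring
      have e2 : 2 * (τ + c₀) + (2 * τ + ρ * τ) = 2 * c₀ + (4 + ρ) * τ := by ring
      rw [e1, e2] at h1
      rw [one_mul]
      exact h1)
  rw [Fin.prod_univ_three, Fin.prod_univ_two] at hlead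
  change ((1 : ℕ) : ℝ) ^ a / a.factorial * ((ρ : ℝ) ^ b / b.factorial) *
    ((e : ℝ) ^ n / n.factorial) ≤
    (((2 * δ + (δ + 1) * ρ : ℕ)) : ℝ) ^ (n + a) / (n + a).factorial *
    ((((4 + ρ : ℕ)) : ℝ) ^ b / b.factorial) at hlead
  have hfac : (a.factorial : ℝ) * n.factorial ≤ ((n + a).factorial : ℝ) := by
    have h2 : a.factorial * n.factorial ≤ (a + n).factorial :=
      Nat.le_of_dvd (Nat.factorial_pos _) (Nat.factorial_mul_factorial_dvd_factorial_add _ _)
    rw [Nat.add_comm a n] at h2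
    exact_mod_cast h2
  have ha : (0 : ℝ) < (a.factorial : ℕ) := by positivity
  have hb : (0 : ℝ) < (b.factorial : ℕ) := by positivity
  have hn : (0 : ℝ) < (n.factorial : ℕ) := by positivity
  have hna : (0 : ℝ) < ((n + a).factorial : ℕ) := by positivity
  push_cast at hlead
  rw [one_pow] at hlead
  have h7 := mul_le_mul_of_nonneg_left hlead
    (show (0 : ℝ) ≤ (a.factorial : ℝ) * b.factorial * n.factorial * (n + a).factorial by
      positivity)
  have l1 : (a.factorial : ℝ) * b.factorial * n.factorial * (n + a).factorial *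
      (1 / (a.factorial : ℝ) * ((ρ : ℝ) ^ b / b.factorial) * ((e : ℝ) ^ n / n.factorial)) =
      (e : ℝ) ^ n * (ρ : ℝ) ^ b * (n + a).factorial := by
    field_simp
  have l2 : (a.factorial : ℝ) * b.factorial * n.factorial * (n + a).factorial *
      ((2 * (δ : ℝ) + (δ + 1) * (ρ : ℝ)) ^ (n + a) / (n + a).factorial *
        ((4 + (ρ : ℝ)) ^ b / b.factorial)) =
      (2 * δ + (δ + 1) * ρ : ℝ) ^ (n + a) * (4 + ρ : ℝ) ^ b * (a.factorial * n.factorial) := by
    field_simp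
  rw [l1, l2] at h7
  have h8 := h7.trans (mul_le_mul_of_nonneg_left hfac
    (show (0 : ℝ) ≤ (2 * δ + (δ + 1) * ρ : ℝ) ^ (n + a) * (4 + ρ : ℝ) ^ b by positivity))
  exact le_of_mul_le_mul_right h8 hna

/-- the logarithmic form of the inequality -/
theorem log_explicit (e n a b c₀ δ : ℕ) (he : 0 < e) (hn : 0 < n) (hδ : 1 ≤ δ)
    (h : ∀ τ u r : ℕ, ((u + a).choose a * (r + b).choose b) * (e * τ + n).choose n ≤
      (n + a + 1).multichoose (δ * (τ + c₀) + (δ * u + (δ + 1) * r)) *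
        (b + 1).multichoose (2 * (τ + c₀) + (2 * u + r))) :
    (n : ℝ) * Real.log e ≤ ((n : ℝ) + a) * Real.log (δ * (10 + 8 * b / n)) + n := by
  set ρ : ℕ := 4 * (b / n + 1) with hρ
  have hρ0 : 0 < ρ := by positivity
  have h1 := explicit e n a b c₀ ρ δ h
  have hnr : (0 : ℝ) < n := by exact_mod_cast hn
  have her : (0 : ℝ) < e := by exact_mod_cast he
  have hρr : (0 : ℝ) < ρ := by exact_mod_cast hρ0
  have hδr : (1 : ℝ) ≤ δ := by exact_mod_cast hδ
  have h2 := Real.log_le_log (by positivity) h1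
  rw [Real.log_mul (by positivity) (by positivity), Real.log_mul (by positivity) (by positivity),
    Real.log_pow, Real.log_pow, Real.log_pow, Real.log_pow] at h2
  have h3 : Real.log (2 * δ + (δ + 1) * ρ) ≤ Real.log (δ * (10 + 8 * b / n)) := by
    apply Real.log_le_log (by positivity)
    have h4 : ((b / n : ℕ) : ℝ) ≤ b / n := Nat.cast_div_le
    have h5 : (ρ : ℝ) = 4 * ((b / n : ℕ) + 1) := by rw [hρ]; push_cast; ring
    have h6 : 8 * (b : ℝ) / n = 8 * (b / n) := by ring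
    have h7 : (2 * δ + (δ + 1) * ρ : ℝ) ≤ δ * (2 + 2 * ρ) := by nlinarith
    refine h7.trans ?_
    rw [h5, h6]
    apply mul_le_mul_of_nonneg_left _ (by linarith)
    linarith
  have h4 : (b : ℝ) * (Real.log (4 + ρ) - Real.log ρ) ≤ n := by
    have h5 : Real.log (4 + ρ) - Real.log ρ ≤ 4 / ρ := by
      rw [← Real.log_div (by positivity) (by positivity)]
      have h6 := Real.log_le_sub_one_of_pos (show 0 < (4 + ρ : ℝ) / ρ by positivity)
      have h7 : (4 + ρ : ℝ) / ρ - 1 = 4 / ρ := by field_simp; ring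
      linarith
    have h6 : 4 * (b : ℝ) ≤ n * ρ := by
      have h7 := Nat.lt_mul_div_succ b hn
      have h8 : 4 * b ≤ n * ρ := by
        rw [hρ]
        have : n * (4 * (b / n + 1)) = 4 * (n * (b / n + 1)) := by ring
        omega
      exact_mod_cast h8
    calc (b : ℝ) * (Real.log (4 + ρ) - Real.log ρ) ≤ b * (4 / ρ) :=
          mul_le_mul_of_nonneg_left h5 (by positivity)
      _ = (4 * b) / ρ := by ring
      _ ≤ (n * ρ) / ρ := by gcongr
      _ = n := by field_simp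
  have h5 : ((n + a : ℕ) : ℝ) * Real.log (2 * δ + (δ + 1) * ρ) ≤
      ((n : ℝ) + a) * Real.log (δ * (10 + 8 * b / n)) := by
    push_cast
    exact mul_le_mul_of_nonneg_left h3 (by positivity)
  linarith

/-- the numerical part -/
lemma numeric (m k D S s δ : ℕ) (hm : 55000 ≤ m) (hD1 : m ^ 2 ≤ 272 * D) (hδ : 1 ≤ δ)
    (hk : m < 1696 * k)
    (h : (D : ℝ) * Real.log ((k - 1 : ℕ) : ℝ) ≤
      ((D : ℝ) + (s + s : ℕ)) * Real.log (δ * (10 + 8 * ((S + S : ℕ) : ℝ) / D)) + D) :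
    (m : ℝ) ^ 2 * Real.log ((m : ℝ) ^ 3 / (21000000 * δ * ((m : ℝ) ^ 2 + S))) ≤
      544 * s * Real.log (δ * (10 + 4352 * S / (m : ℝ) ^ 2)) := by
  have hmr : (55000 : ℝ) ≤ m := by exact_mod_cast hm
  have hm0 : (0 : ℝ) < m := by linarith
  have hS0 : (0 : ℝ) ≤ S := by positivity
  have hs0 : (0 : ℝ) ≤ s := by positivity
  have hD0 : 0 < D := by nlinarith
  have hDr : (0 : ℝ) < D := by exact_mod_cast hD0
  have hδr : (1 : ℝ) ≤ δ := by exact_mod_cast hδ
  have hDm : (m : ℝ) ^ 2 ≤ 272 * D := by exact_mod_cast hD1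
  have hkm : (m : ℝ) ≤ 1749 * ((k - 1 : ℕ) : ℝ) := by
    have : m ≤ 1749 * (k - 1) := by omega
    exact_mod_cast this
  have hkr : (0 : ℝ) < ((k - 1 : ℕ) : ℝ) := by linarith
  push_cast at h
  have h1 : Real.log (δ * (10 + 8 * ((S : ℝ) + S) / D)) ≤
      Real.log (δ * (10 + 4352 * S / (m : ℝ) ^ 2)) := by
    apply Real.log_le_log (by positivity)
    have h2 : 8 * ((S : ℝ) + S) / D ≤ 4352 * S / (m : ℝ) ^ 2 := by
      rw [div_le_div_iff₀ hDr (by positivity)]
      nlinarith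
    apply mul_le_mul_of_nonneg_left _ (by linarith)
    linarith
  set R := Real.log (δ * (10 + 4352 * S / (m : ℝ) ^ 2)) with hR
  have hR0 : 0 ≤ R := by
    apply Real.log_nonneg
    have : 0 ≤ 4352 * S / (m : ℝ) ^ 2 := by positivity
    nlinarith
  have h3 : (D : ℝ) * Real.log ((k - 1 : ℕ) : ℝ) ≤ ((D : ℝ) + 2 * s) * R + D := by
    refine h.trans ?_
    have : ((D : ℝ) + (s + s)) * Real.log (δ * (10 + 8 * ((S : ℝ) + S) / D)) ≤
        ((D : ℝ) + (s + s)) * R :=
      mul_le_mul_of_nonneg_left h1 (by positivity)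
    linarith
  set Λ₀ := Real.log ((m : ℝ) ^ 3 / (21000000 * δ * ((m : ℝ) ^ 2 + S))) with hΛ₀
  have h4 : Λ₀ ≤ Real.log ((k - 1 : ℕ) : ℝ) - R - 1 := by
    have e2 : Real.log ((k - 1 : ℕ) : ℝ) - R - 1 =
        Real.log (((k - 1 : ℕ) : ℝ) / ((δ * (10 + 4352 * S / (m : ℝ) ^ 2)) * Real.exp 1)) := by
      rw [Real.log_div hkr.ne' (by positivity), Real.log_mul (by positivity) (Real.exp_ne_zero _),
        Real.log_exp]
      ring
    rw [e2]
    apply Real.log_le_log (by positivity)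
    rw [div_le_div_iff₀ (by positivity) (by positivity)]
    have e3 : Real.exp 1 ≤ 2.7183 := by
      have := Real.exp_one_lt_d9
      linarith
    have e4 : (m : ℝ) ^ 3 * ((δ * (10 + 4352 * S / (m : ℝ) ^ 2)) * Real.exp 1) =
        m * (δ * (10 * (m : ℝ) ^ 2 + 4352 * S)) * Real.exp 1 := by
      field_simp
    rw [e4]
    calc m * (δ * (10 * (m : ℝ) ^ 2 + 4352 * S)) * Real.exp 1 ≤
        (1749 * ((k - 1 : ℕ) : ℝ)) * (δ * (10 * (m : ℝ) ^ 2 + 4352 * S)) * 2.7183 := by gcongr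
      _ ≤ ((k - 1 : ℕ) : ℝ) * (21000000 * δ * ((m : ℝ) ^ 2 + S)) := by
          have h7 : (0 : ℝ) ≤ ((k - 1 : ℕ) : ℝ) * (δ * (m : ℝ) ^ 2) := by positivity
          have h8 : (0 : ℝ) ≤ ((k - 1 : ℕ) : ℝ) * (δ * S) := by positivity
          nlinarith
  have h5 : (D : ℝ) * Λ₀ ≤ 2 * s * R := by
    have h6 : (D : ℝ) * Λ₀ ≤ D * (Real.log ((k - 1 : ℕ) : ℝ) - R - 1) :=
      mul_le_mul_of_nonneg_left h4 hDr.le
    linarith
  rcases le_or_gt Λ₀ 0 with h0 | h0
  · calc (m : ℝ) ^ 2 * Λ₀ ≤ (m : ℝ) ^ 2 * 0 := mul_le_mul_of_nonneg_left h0 (by positivity)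
      _ = 0 := mul_zero _
      _ ≤ _ := by positivity
  · calc (m : ℝ) ^ 2 * Λ₀ ≤ 272 * D * Λ₀ := mul_le_mul_of_nonneg_right hDm h0.le
      _ = 272 * (D * Λ₀) := by ring
      _ ≤ 272 * (2 * s * R) := mul_le_mul_of_nonneg_left h5 (by norm_num)
      _ = _ := by ring

end Pool.Agent.TH152.NS
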