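import Pool.Agent.TH152.NS.Border
import Pool.Agent.TH152.NS.Lead
import Pool.Agent.W944.CircFinal

/-! # Nondegenerate systems which give the permanent -/

set_option autoImplicit false
set_option linter.unusedSectionVars false

open Module MvPolynomial

namespace Pool.Agent.TH152.NS

open Pool.Agent.W940.G
open Pool.Agent.H546R2.SL (perN)
open Pool.Agent.H632R2.Border (O0 φ0 ψ0 φψ rmap rmap_mem rmap_eval totalDegree_map_le)
open Pool.Agent.W944.Cx (lift_poly exists_params)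
open Pool.Agent.TH152.DG (O0_perturb)

/-- homomorphisms from algebraic extensions to algebraically closed fields -/
lemma exists_ext_closure {A₀ E₀ E₁ : Type*} [CommRing A₀] [IsDomain A₀] [Field E₀] [Algebra A₀ E₀]
    [Algebra.IsAlgebraic A₀ E₀] (hinj : Function.Injective (algebraMap A₀ E₀)) [Field E₁]
    [IsAlgClosed E₁] (β : A₀ →+* E₁) (hβ : Function.Injective β) :
    ∃ θ : E₀ →+* E₁, ∀ a, θ (algebraMap A₀ E₀ a) = β a := by
  let _ : Algebra A₀ E₁ := β.toAlgebra
  have h1 : Module.IsTorsionFree A₀ E₁ := by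
    rw [Module.isTorsionFree_iff_algebraMap_injective]
    exact hβ
  have h2 : Module.IsTorsionFree A₀ E₀ := by
    rw [Module.isTorsionFree_iff_algebraMap_injective]
    exact hinj
  let θ : E₀ →ₐ[A₀] E₁ := IsAlgClosed.lift
  exact ⟨θ, fun a => θ.commutes a⟩

/-- The polynomial `F` is a function `f` of the variables and of a nondegenerate solution `u`, in
the algebraic functions, of a system of `s + S` equations. -/
def Given {K σ : Type*} [Field K] [Fintype σ] (δ s S : ℕ) (F : MvPolynomial σ K) : Prop :=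
  ∃ (eq : Fin s ⊕ Fin S → MvPolynomial (σ ⊕ (Fin s ⊕ Fin S)) K)
    (f : MvPolynomial (σ ⊕ (Fin s ⊕ Fin S)) K)
    (u : Fin s ⊕ Fin S → AlgebraicClosure (FractionRing (MvPolynomial σ K))),
    (∀ i, Bideg δ 2 (eq (Sum.inl i))) ∧
    (∀ b, Bideg δ 1 (eq (Sum.inr b))) ∧
    Bideg δ 2 f ∧
    (∀ k, evp (algebraMap (MvPolynomial σ K)
      (AlgebraicClosure (FractionRing (MvPolynomial σ K)))) u (eq k) = 0) ∧
    (Matrix.of fun k j => evp (algebraMap (MvPolynomial σ K)
      (AlgebraicClosure (FractionRing (MvPolynomial σ K)))) u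
      (pderiv (Sum.inr j) (eq k))).det ≠ 0 ∧
    evp (algebraMap (MvPolynomial σ K)
      (AlgebraicClosure (FractionRing (MvPolynomial σ K)))) u f =
      algebraMap (MvPolynomial σ K) (AlgebraicClosure (FractionRing (MvPolynomial σ K))) F

/-- base change of values -/
lemma evp_map {K K' σ U R R' : Type*} [Field K] [Field K'] [CommRing R] [CommRing R']
    (ρ : K →+* K') (α : MvPolynomial σ K →+* R) (α' : MvPolynomial σ K' →+* R') (θ : R →+* R')
    (h : ∀ P, θ (α P) = α' (map ρ P)) (u : U → R) (P : MvPolynomial (σ ⊕ U) K) :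
    evp α' (fun k => θ (u k)) (map ρ P) = θ (evp α u P) := by
  unfold evp
  rw [coe_eval₂Hom, coe_eval₂Hom, hom_eval₂, eval₂_map]
  have e1 : (α'.comp C).comp ρ = θ.comp (α.comp C) := by
    ext a
    change α' (C (ρ a)) = θ (α (C a))
    rw [h, map_C]
  have e2 : (Sum.elim (fun v => α' (X v)) (fun k => θ (u k)) : σ ⊕ U → R') =
      fun i => θ (Sum.elim (fun v => α (X v)) u i) := by
    funext i
    rcases i with v | k
    · simp only [Sum.elim_inl]
      rw [h, map_X]
    · rfl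
  rw [e1, e2]

/-- base change of systems -/
theorem Given.map {K K' σ : Type*} [Field K] [Field K'] [Fintype σ] [DecidableEq σ]
    (ρ : K →+* K') {δ s S : ℕ}
    {F : MvPolynomial σ K} (h : Given δ s S F) : Given δ s S (MvPolynomial.map ρ F) := by
  obtain ⟨eq, f, u, h1, h2, h3, h4, h5, h6⟩ := h
  set α := algebraMap (MvPolynomial σ K) (AlgebraicClosure (FractionRing (MvPolynomial σ K)))
    with hα
  set α' := algebraMap (MvPolynomial σ K') (AlgebraicClosure (FractionRing (MvPolynomial σ K')))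
    with hα'
  have hαi : Function.Injective α := by
    rw [hα, IsScalarTower.algebraMap_eq (MvPolynomial σ K) (FractionRing (MvPolynomial σ K))
      (AlgebraicClosure (FractionRing (MvPolynomial σ K)))]
    exact (algebraMap (FractionRing (MvPolynomial σ K)) _).injective.comp
      (IsFractionRing.injective _ _)
  have hαi' : Function.Injective α' := by
    rw [hα', IsScalarTower.algebraMap_eq (MvPolynomial σ K') (FractionRing (MvPolynomial σ K'))
      (AlgebraicClosure (FractionRing (MvPolynomial σ K')))]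
    exact (algebraMap (FractionRing (MvPolynomial σ K')) _).injective.comp
      (IsFractionRing.injective _ _)
  have halg : Algebra.IsAlgebraic (MvPolynomial σ K)
      (AlgebraicClosure (FractionRing (MvPolynomial σ K))) := by
    refine ⟨fun x => ?_⟩
    exact (IsFractionRing.isAlgebraic_iff (MvPolynomial σ K)
      (FractionRing (MvPolynomial σ K)) _).mpr (Algebra.IsAlgebraic.isAlgebraic x)
  obtain ⟨θ, hθ⟩ := exists_ext_closure hαi (α'.comp (MvPolynomial.map ρ))
    (hαi'.comp (map_injective ρ ρ.injective))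
  have hev := fun P => evp_map ρ α α' θ hθ u P
  refine ⟨fun k => MvPolynomial.map ρ (eq k), MvPolynomial.map ρ f, fun k => θ (u k),
    fun i => (h1 i).map ρ, fun b => (h2 b).map ρ, h3.map ρ, ?_, ?_, ?_⟩
  · intro k
    rw [hev, h4, map_zero]
  · have e1 : (Matrix.of fun k j => evp α' (fun k => θ (u k))
        (pderiv (Sum.inr j) (MvPolynomial.map ρ (eq k)))) =
        θ.mapMatrix (Matrix.of fun k j => evp α u (pderiv (Sum.inr j) (eq k))) := by
      ext k j
      rw [Matrix.of_apply, RingHom.mapMatrix_apply, Matrix.map_apply, Matrix.of_apply,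
        pderiv_map, hev]
    rw [e1, ← RingHom.map_det]
    exact (map_ne_zero_iff _ θ.injective).mpr h5
  · rw [hev, h6]
    exact hθ F

/-- **The inequality for limits.** -/
theorem perm_ineq (k₀ : Type*) [Field k₀] [CharZero k₀] {q ℓ k p : ℕ} (hk : 2 ≤ k)
    (hm' : mm (2 ^ ℓ) = 2 * k) (hq : 0 < q) (m : ℕ) (hm : m = NN q ℓ + p) {δ s S : ℕ} (hδ : 1 ≤ δ)
    (F : MvPolynomial (Fin m × Fin m) (RatFunc k₀)) (hF : Given δ s S F)
    (hlim : ∀ μ, (coeff μ F).denom.eval 0 ≠ 0 ∧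
      RatFunc.eval (RingHom.id k₀) 0 (coeff μ F) = coeff μ (perN k₀ m)) (D : ℕ)
    (hD : D = q * (q * ((2 ^ ℓ * 2 ^ ℓ) * k))) :
    (D : ℝ) * Real.log ((k - 1 : ℕ) : ℝ) ≤
      ((D : ℝ) + (s + s : ℕ)) * Real.log (δ * (10 + 8 * ((S + S : ℕ) : ℝ) / D)) + D := by
  classical
  obtain ⟨G, hG1, hG2⟩ := lift_poly F (perN k₀ m) hlim
  rw [Pool.Agent.H546R2.SL.map_perN] at hG2
  obtain ⟨S₁, y, hS, hy, hz, hyS, hS0, hS1⟩ :=
    exists_subst2 (AlgebraicClosure k₀) hk hm' hq m hm
  have hcard : Fintype.card (Id2 q (2 ^ ℓ) k) = D := by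
    rw [hD]
    simp [Id2, Fintype.card_prod]
  have hcard0 : 0 < Fintype.card (Id2 q (2 ^ ℓ) k) := by
    rw [hcard, hD]
    have h1 : 0 < 2 ^ ℓ * 2 ^ ℓ := by positivity
    have h2 : 0 < k := by omega
    positivity
  obtain ⟨eq, f, u, h1, h2, h3, h4, h5, h6⟩ :=
    hF.map (rmap (algebraMap k₀ (AlgebraicClosure k₀)))
  rw [← hG1] at h6
  have : CharZero (RatFunc (AlgebraicClosure k₀)) :=
    charZero_of_injective_ringHom (RatFunc.C_injective (K := AlgebraicClosure k₀))
  obtain ⟨c₀, hdim⟩ := border_dim (φψ (AlgebraicClosure k₀)) (fun c => O0_perturb c) S₁ hS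
    (perN (AlgebraicClosure k₀) m) y (k - 1) (by omega) hy hz hyS hcard0 δ hδ
    h1 h2 h3 u h4 h5 G h6 hG2
  rw [hcard, Fintype.card_fin, Fintype.card_fin] at hdim
  have hD0 : 0 < D := by rw [← hcard]; exact hcard0
  exact log_explicit (k - 1) D (s + s) (S + S) c₀ δ (by omega) hD0 hδ hdim

/-- **The trade-off for limits.** -/
theorem perm_border (k₀ : Type*) [Field k₀] [CharZero k₀] (m : ℕ) (hm : 55000 ≤ m) {δ s S : ℕ}
    (hδ : 1 ≤ δ) (F : MvPolynomial (Fin m × Fin m) (RatFunc k₀)) (hF : Given δ s S F)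
    (hlim : ∀ μ, (coeff μ F).denom.eval 0 ≠ 0 ∧
      RatFunc.eval (RingHom.id k₀) 0 (coeff μ F) = coeff μ (perN k₀ m)) :
    (m : ℝ) ^ 2 * Real.log ((m : ℝ) ^ 3 / (21000000 * δ * ((m : ℝ) ^ 2 + S))) ≤
      544 * s * Real.log (δ * (10 + 4352 * S / (m : ℝ) ^ 2)) := by
  obtain ⟨q, ℓ, k, p, D, hk2, hmm, hq, hmN, hD, hD1, hD2, hk⟩ := exists_params m hm
  exact numeric m k D S s δ hm hD1 hδ hk (perm_ineq k₀ hk2 hmm hq m hmN hδ F hF hlim D hD)

/-- the power form of the inequality -/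
theorem power_form (m S s δ : ℕ) (hm : 55000 ≤ m) (hδ : 1 ≤ δ)
    (h : (m : ℝ) ^ 2 * Real.log ((m : ℝ) ^ 3 / (21000000 * δ * ((m : ℝ) ^ 2 + S))) ≤
      544 * s * Real.log (δ * (10 + 4352 * S / (m : ℝ) ^ 2))) :
    (m : ℝ) ^ (2 + (m : ℝ) ^ 2 / ((m : ℝ) ^ 2 + 544 * s)) ≤
      21000000 * δ * ((m : ℝ) ^ 2 + S) := by
  have hmr : (55000 : ℝ) ≤ m := by exact_mod_cast hm
  have hm0 : (0 : ℝ) < m := by linarith
  have hS0 : (0 : ℝ) ≤ S := by positivity
  have hs0 : (0 : ℝ) ≤ s := by positivity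
  have hδr : (1 : ℝ) ≤ δ := by exact_mod_cast hδ
  set Y : ℝ := 21000000 * δ * (1 + S / (m : ℝ) ^ 2) with hY
  have hY0 : 0 < Y := by positivity
  have e1 : 21000000 * δ * ((m : ℝ) ^ 2 + S) = (m : ℝ) ^ 2 * Y := by
    rw [hY]
    field_simp
  have h1 : Real.log ((m : ℝ) ^ 3 / (21000000 * δ * ((m : ℝ) ^ 2 + S))) =
      Real.log m - Real.log Y := by
    rw [e1, ← Real.log_div hm0.ne' hY0.ne']
    congr 1
    field_simp
  have h2 : Real.log (δ * (10 + 4352 * S / (m : ℝ) ^ 2)) ≤ Real.log Y := by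
    apply Real.log_le_log (by positivity)
    rw [hY]
    have h3 : 4352 * S / (m : ℝ) ^ 2 = 4352 * (S / (m : ℝ) ^ 2) := by ring
    have h4 : 0 ≤ (S : ℝ) / (m : ℝ) ^ 2 := by positivity
    rw [h3]
    have h5 : 0 ≤ (δ : ℝ) * (S / (m : ℝ) ^ 2) := by positivity
    nlinarith
  rw [h1] at h
  have h3 : (m : ℝ) ^ 2 * Real.log m ≤ ((m : ℝ) ^ 2 + 544 * s) * Real.log Y := by
    have h4 : 544 * (s : ℝ) * Real.log (δ * (10 + 4352 * S / (m : ℝ) ^ 2)) ≤
        544 * s * Real.log Y := mul_le_mul_of_nonneg_left h2 (by positivity)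
    linarith
  have hpos : 0 < (m : ℝ) ^ 2 + 544 * s := by positivity
  have h5 : (m : ℝ) ^ 2 / ((m : ℝ) ^ 2 + 544 * s) * Real.log m ≤ Real.log Y := by
    rw [div_mul_eq_mul_div, div_le_iff₀ hpos]
    linarith
  rw [e1, Real.rpow_add hm0]
  have h6 : (m : ℝ) ^ (2 : ℝ) = (m : ℝ) ^ 2 := by norm_cast
  rw [h6]
  apply mul_le_mul_of_nonneg_left _ (by positivity)
  rw [Real.rpow_def_of_pos hm0, mul_comm, ← Real.le_log_iff_exp_le hY0]
  exact h5

end Pool.Agent.TH152.NS
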