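import Pool.Agent.TH152.NS.Dim2
import Pool.Agent.TH152.NS.Deriv

/-! # The equations of a system and of its multipliers -/

set_option autoImplicit false
set_option linter.unusedSectionVars false

open Module MvPolynomial

namespace Pool.Agent.TH152.NS

open Pool.Agent.TH152.DG

/-- all unknowns: the unknowns and the multipliers of the two kinds -/
abbrev Un (H Z : Type*) : Type _ := Fin 0 ⊕ ((H ⊕ H) ⊕ (Z ⊕ Z))

/-- the unknowns of the system -/
def unk {H Z : Type*} : H ⊕ Z → Un H Z :=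
  Sum.elim (fun i => Sum.inr (Sum.inl (Sum.inl i))) (fun b => Sum.inr (Sum.inr (Sum.inl b)))

/-- the multipliers -/
def mlt {H Z : Type*} : H ⊕ Z → Un H Z :=
  Sum.elim (fun i => Sum.inr (Sum.inl (Sum.inr i))) (fun b => Sum.inr (Sum.inr (Sum.inr b)))

variable {L E : Type*} [Field L] [Field E] [Algebra L E]
variable {σ ι H Z : Type*} [Fintype σ] [DecidableEq σ] [Fintype ι] [Fintype H] [Fintype Z]
  [DecidableEq H] [DecidableEq Z]

/-- substitution of the values of the variables -/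
noncomputable def kap (xt : σ → E) :
    MvPolynomial (σ ⊕ (H ⊕ Z)) L →ₐ[L] MvPolynomial (Un H Z) E :=
  aeval (Sum.elim (fun v => C (xt v)) (fun k => X (unk k)))

/-- the values of the unknowns and of the multipliers -/
def val (u Λ : H ⊕ Z → E) : Un H Z → E :=
  Sum.elim Fin.elim0 (Sum.elim (Sum.elim (fun i => u (Sum.inl i)) (fun i => Λ (Sum.inl i)))
    (Sum.elim (fun b => u (Sum.inr b)) (fun b => Λ (Sum.inr b))))

lemma val_unk (u Λ : H ⊕ Z → E) (k : H ⊕ Z) : val u Λ (unk k) = u k := by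
  rcases k with i | b <;> rfl

lemma val_mlt (u Λ : H ⊕ Z → E) (k : H ⊕ Z) : val u Λ (mlt k) = Λ k := by
  rcases k with i | b <;> rfl

variable (xt : σ → E) (eq : H ⊕ Z → MvPolynomial (σ ⊕ (H ⊕ Z)) L)
  (f : MvPolynomial (σ ⊕ (H ⊕ Z)) L)

/-- the equation of the multipliers -/
noncomputable def adj (j : H ⊕ Z) : MvPolynomial (Un H Z) E :=
  ∑ k, X (mlt k) * kap xt (pderiv (Sum.inr j) (eq k)) - kap xt (pderiv (Sum.inr j) f)

/-- the equations -/
noncomputable def rel : Un H Z → MvPolynomial (Un H Z) E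
  | Sum.inl z => z.elim0
  | Sum.inr (Sum.inl (Sum.inl i)) => kap xt (eq (Sum.inl i))
  | Sum.inr (Sum.inl (Sum.inr i)) => adj xt eq f (Sum.inl i)
  | Sum.inr (Sum.inr (Sum.inl b)) => kap xt (eq (Sum.inr b))
  | Sum.inr (Sum.inr (Sum.inr b)) => adj xt eq f (Sum.inr b)

lemma rel_unk (k : H ⊕ Z) : rel xt eq f (unk k) = kap xt (eq k) := by
  rcases k with i | b <;> rfl

lemma rel_mlt (k : H ⊕ Z) : rel xt eq f (mlt k) = adj xt eq f k := by
  rcases k with i | b <;> rfl

lemma un_cases (z : Un H Z) : (∃ k, z = unk k) ∨ ∃ k, z = mlt k := by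
  rcases z with z | (i | i) | (b | b)
  · exact z.elim0
  · exact Or.inl ⟨Sum.inl i, rfl⟩
  · exact Or.inr ⟨Sum.inl i, rfl⟩
  · exact Or.inl ⟨Sum.inr b, rfl⟩
  · exact Or.inr ⟨Sum.inr b, rfl⟩

variable {xt eq f} {u Λ : H ⊕ Z → E}

lemma eval_kap (P : MvPolynomial (σ ⊕ (H ⊕ Z)) L) :
    eval (val u Λ) (kap xt P) = aeval (Sum.elim xt u) P := by
  have h : ((aeval (val u Λ) : MvPolynomial (Un H Z) E →ₐ[E] E).restrictScalars L).comp
      (kap xt) = aeval (Sum.elim xt u) := by
    apply algHom_ext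
    intro i
    rcases i with v | k
    · simp [kap]
    · simp [kap, val_unk]
  exact DFunLike.congr_fun h P

lemma ev2_kap (w : Un H Z → E) (P : MvPolynomial (σ ⊕ (H ⊕ Z)) L) :
    ev2 (val u Λ) w (kap xt P) = TrivSqZeroExt.inl (aeval (Sum.elim xt u) P) +
      TrivSqZeroExt.inr (∑ k, aeval (Sum.elim xt u) (pderiv (Sum.inr k) P) * w (unk k)) := by
  have h1 : ev2 (val u Λ) w (kap xt P) = eval₂ ((TrivSqZeroExt.inlHom E E).comp (algebraMap L E))
      (fun i => TrivSqZeroExt.inl (Sum.elim xt u i) +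
        TrivSqZeroExt.inr (Sum.elim (fun _ => 0) (fun k => w (unk k)) i : E)) P := by
    induction P using MvPolynomial.induction_on with
    | C a =>
      rw [eval₂_C]
      have e1 : kap xt (C a : MvPolynomial (σ ⊕ (H ⊕ Z)) L) =
          (C (algebraMap L E a) : MvPolynomial (Un H Z) E) := by
        rw [← algebraMap_eq, AlgHom.commutes]
        rfl
      rw [e1]
      unfold ev2
      rw [← algebraMap_eq, AlgHom.commutes]
      rfl
    | add P Q hP hQ => rw [map_add, map_add, hP, hQ, eval₂_add]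
    | mul_X P j hP =>
      rw [map_mul, map_mul, hP, eval₂_mul, eval₂_X]
      congr 1
      rcases j with v | k
      · have e1 : kap xt (X (Sum.inl v) : MvPolynomial (σ ⊕ (H ⊕ Z)) L) =
            (C (xt v) : MvPolynomial (Un H Z) E) := by
          simp [kap]
        rw [e1]
        unfold ev2
        rw [← algebraMap_eq, AlgHom.commutes]
        simp
        rfl
      · have e1 : kap xt (X (Sum.inr k) : MvPolynomial (σ ⊕ (H ⊕ Z)) L) =
            (X (unk k) : MvPolynomial (Un H Z) E) := by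
          simp [kap]
        rw [e1]
        unfold ev2
        rw [aeval_X, val_unk]
        rfl
  rw [h1, eval₂_dual, Fintype.sum_sum_type]
  simp only [Sum.elim_inl, Sum.elim_inr, mul_zero, Finset.sum_const_zero, zero_add]
  rfl

lemma eval_rel (heq : ∀ k, aeval (Sum.elim xt u) (eq k) = 0)
    (hΛ : ∀ j, ∑ k, Λ k * aeval (Sum.elim xt u) (pderiv (Sum.inr j) (eq k)) =
      aeval (Sum.elim xt u) (pderiv (Sum.inr j) f)) (z : Un H Z) :
    eval (val u Λ) (rel xt eq f z) = 0 := by
  rcases un_cases z with ⟨k, rfl⟩ | ⟨k, rfl⟩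
  · rw [rel_unk, eval_kap, heq]
  · rw [rel_mlt]
    unfold adj
    rw [map_sub, map_sum, eval_kap, sub_eq_zero, ← hΛ k]
    apply Finset.sum_congr rfl
    intro j _
    rw [map_mul, eval_X, val_mlt, eval_kap]

lemma rel_indep
    (hJ : (Matrix.of fun k j => aeval (Sum.elim xt u) (pderiv (Sum.inr j) (eq k))).det ≠ 0)
    (w : Un H Z → E) (h : ∀ z, (ev2 (val u Λ) w (rel xt eq f z)).snd = 0) : w = 0 := by
  set J := Matrix.of fun k j => aeval (Sum.elim xt u) (pderiv (Sum.inr j) (eq k)) with hJdef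
  have h1 : (fun k => w (unk k)) = 0 := by
    apply Matrix.eq_zero_of_mulVec_eq_zero hJ
    funext k
    have h2 := h (unk k)
    rw [rel_unk, ev2_kap] at h2
    simp only [TrivSqZeroExt.snd_add, TrivSqZeroExt.snd_inl, TrivSqZeroExt.snd_inr,
      zero_add] at h2
    exact h2
  have h1' : ∀ k, w (unk k) = 0 := fun k => congrFun h1 k
  have hk : ∀ P : MvPolynomial (σ ⊕ (H ⊕ Z)) L, ev2 (val u Λ) w (kap xt P) =
      TrivSqZeroExt.inl (aeval (Sum.elim xt u) P) := by
    intro P
    rw [ev2_kap]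
    simp only [h1', mul_zero, Finset.sum_const_zero, TrivSqZeroExt.inr_zero, add_zero]
  have h2 : (fun k => w (mlt k)) = 0 := by
    apply Matrix.eq_zero_of_vecMul_eq_zero hJ
    funext j
    have h3 := h (mlt j)
    rw [rel_mlt] at h3
    unfold adj at h3
    rw [map_sub, map_sum, hk] at h3
    rw [TrivSqZeroExt.snd_sub, TrivSqZeroExt.snd_inl, sub_zero, TrivSqZeroExt.snd_sum] at h3
    refine Eq.trans ?_ h3
    change ∑ k, w (mlt k) * J k j = _
    apply Finset.sum_congr rfl
    intro k _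
    rw [map_mul, hk]
    unfold ev2
    rw [aeval_X]
    simp [hJdef, mul_comm]
  funext z
  rcases un_cases z with ⟨k, rfl⟩ | ⟨k, rfl⟩
  · exact h1' k
  · exact congrFun h2 k

end Pool.Agent.TH152.NS
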