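import Pool.Agent.TH152.NS.Sys

/-! # Degrees of the equations of a system and of its multipliers -/

set_option autoImplicit false
set_option linter.unusedSectionVars false

open Module MvPolynomial

namespace Pool.Agent.TH152.NS

open Pool.Agent.TH152.DG hiding rel val Un rel_indep eval_rel

/-- `P` has degree at most `δ` in the variables and in the unknowns of the first kind together, and
degree at most `β` in the unknowns of the second kind. -/
def Bideg {K σ H Z : Type*} [CommSemiring K] [Fintype σ] [Fintype H] [Fintype Z] (δ β : ℕ)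
    (P : MvPolynomial (σ ⊕ (H ⊕ Z)) K) : Prop :=
  ∀ μ ∈ P.support, (∑ v, μ (Sum.inl v)) + (∑ i, μ (Sum.inr (Sum.inl i))) ≤ δ ∧
    ∑ b, μ (Sum.inr (Sum.inr b)) ≤ β

variable {L E : Type*} [Field L] [Field E] [Algebra L E]
variable {σ ι H Z : Type*} [Fintype σ] [DecidableEq σ] [Fintype ι] [Fintype H] [Fintype Z]
  [DecidableEq H] [DecidableEq Z]

lemma mem_support_pderiv {τ R : Type*} [CommRing R] (i : τ) (p : MvPolynomial τ R) (m : τ →₀ ℕ)
    (hm : m ∈ (pderiv i p).support) : m + Finsupp.single i 1 ∈ p.support := by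
  rw [MvPolynomial.mem_support_iff, coeff_pderiv] at hm
  rw [MvPolynomial.mem_support_iff]
  intro h
  rw [h, zero_mul] at hm
  exact hm rfl

lemma Bideg.pderiv_light {δ β : ℕ} {P : MvPolynomial (σ ⊕ (H ⊕ Z)) L} (hP : Bideg δ β P)
    (b : Z) : Bideg δ (β - 1) (pderiv (Sum.inr (Sum.inr b)) P) := by
  intro μ hμ
  obtain ⟨h1, h2⟩ := hP _ (mem_support_pderiv _ _ _ hμ)
  simp only [Finsupp.add_apply, Finset.sum_add_distrib] at h1 h2
  have e3 : ∑ b', (Finsupp.single (Sum.inr (Sum.inr b) : σ ⊕ (H ⊕ Z)) 1 :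
      σ ⊕ (H ⊕ Z) →₀ ℕ) (Sum.inr (Sum.inr b')) = 1 := by
    rw [Finset.sum_eq_single b]
    · simp
    · intro b' _ hb'
      rw [Finsupp.single_apply, if_neg]
      intro h
      exact hb' (by simpa using h.symm)
    · intro h; exact absurd (Finset.mem_univ _) h
  rw [e3] at h2
  constructor
  · omega
  · omega

lemma Bideg.pderiv_heavy {δ β : ℕ} {P : MvPolynomial (σ ⊕ (H ⊕ Z)) L} (hP : Bideg δ β P)
    (i : H) : Bideg (δ - 1) β (pderiv (Sum.inr (Sum.inl i)) P) := by
  intro μ hμ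
  obtain ⟨h1, h2⟩ := hP _ (mem_support_pderiv _ _ _ hμ)
  simp only [Finsupp.add_apply, Finset.sum_add_distrib] at h1 h2
  have e3 : ∑ b', (Finsupp.single (Sum.inr (Sum.inl i) : σ ⊕ (H ⊕ Z)) 1 :
      σ ⊕ (H ⊕ Z) →₀ ℕ) (Sum.inr (Sum.inl b')) = 1 := by
    rw [Finset.sum_eq_single i]
    · simp
    · intro b' _ hb'
      rw [Finsupp.single_apply, if_neg]
      intro h
      exact hb' (by simpa using h.symm)
    · intro h; exact absurd (Finset.mem_univ _) h
  rw [e3] at h1
  constructor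
  · omega
  · omega

lemma Bideg.pderiv_var {δ β : ℕ} {P : MvPolynomial (σ ⊕ (H ⊕ Z)) L} (hP : Bideg δ β P)
    (v : σ) : Bideg (δ - 1) β (pderiv (Sum.inl v) P) := by
  intro μ hμ
  obtain ⟨h1, h2⟩ := hP _ (mem_support_pderiv _ _ _ hμ)
  simp only [Finsupp.add_apply, Finset.sum_add_distrib] at h1 h2
  have e3 : ∑ b', (Finsupp.single (Sum.inl v : σ ⊕ (H ⊕ Z)) 1 :
      σ ⊕ (H ⊕ Z) →₀ ℕ) (Sum.inl b') = 1 := by
    rw [Finset.sum_eq_single v]
    · simp
    · intro b' _ hb'
      rw [Finsupp.single_apply, if_neg]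
      intro h
      exact hb' (by simpa using h.symm)
    · intro h; exact absurd (Finset.mem_univ _) h
  rw [e3] at h1
  constructor
  · omega
  · omega

lemma Bideg.map {K K' : Type*} [Field K] [Field K'] (ρ : K →+* K') {δ β : ℕ}
    {P : MvPolynomial (σ ⊕ (H ⊕ Z)) K} (hP : Bideg δ β P) :
    Bideg δ β (MvPolynomial.map ρ P) := fun μ hμ => hP μ (support_map_subset ρ P hμ)

/-- the values of a polynomial of given bidegree -/
lemma kap_mem (x : ι → E) (xt : σ → E) (hx : ∀ v, xt v ∈ xs L x) {δ β : ℕ}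
    {P : MvPolynomial (σ ⊕ (H ⊕ Z)) L} (hP : Bideg δ β P) :
    kap xt P ∈ sp2 (L := L) (Zt := Fin 0) (Zm := H ⊕ H) (Zl := Z ⊕ Z) x δ β := by
  rw [P.as_sum, map_sum]
  apply Submodule.sum_mem
  intro m hm
  obtain ⟨h1, h2⟩ := hP m hm
  rw [monomial_eq, ← smul_eq_C_mul, map_smul]
  apply Submodule.smul_mem
  rw [Finsupp.prod_fintype _ _ (fun _ => pow_zero _), map_prod, Fintype.prod_sum_type,
    Fintype.prod_sum_type]
  have e1 := prod_mem_sp2 (L := L) (Zt := Fin 0) (Zm := H ⊕ H) (Zl := Z ⊕ Z) x Finset.univ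
    (fun v => kap xt (X (Sum.inl v) ^ m (Sum.inl v) : MvPolynomial (σ ⊕ (H ⊕ Z)) L))
    (fun v => m (Sum.inl v)) (fun _ => 0) (fun v _ => by
      have h3 : kap xt (X (Sum.inl v) : MvPolynomial (σ ⊕ (H ⊕ Z)) L) =
          (C (xt v) : MvPolynomial (Un H Z) E) := by simp [kap]
      rw [map_pow, h3]
      have h4 := Submodule.pow_mem_pow _ (C_mem_sp2 (Zt := Fin 0) (Zm := H ⊕ H)
        (Zl := Z ⊕ Z) x _ (hx v)) (m (Sum.inl v))
      rw [sp2_pow, one_mul, zero_mul] at h4
      exact h4)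
  have e2 := prod_mem_sp2 (L := L) (Zt := Fin 0) (Zm := H ⊕ H) (Zl := Z ⊕ Z) x Finset.univ
    (fun i => kap xt (X (Sum.inr (Sum.inl i)) ^ m (Sum.inr (Sum.inl i)) :
      MvPolynomial (σ ⊕ (H ⊕ Z)) L))
    (fun i => m (Sum.inr (Sum.inl i))) (fun _ => 0) (fun i _ => by
      have h3 : kap xt (X (Sum.inr (Sum.inl i)) : MvPolynomial (σ ⊕ (H ⊕ Z)) L) =
          (X (Sum.inr (Sum.inl (Sum.inl i))) : MvPolynomial (Un H Z) E) := by
        simp [kap, unk]
      rw [map_pow, h3]
      have h4 := Submodule.pow_mem_pow _ (Xm_mem_sp2 (L := L) (Zt := Fin 0) (Zm := H ⊕ H)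
        (Zl := Z ⊕ Z) x (Sum.inl i)) (m (Sum.inr (Sum.inl i)))
      rw [sp2_pow, one_mul, zero_mul] at h4
      exact h4)
  have e3 := prod_mem_sp2 (L := L) (Zt := Fin 0) (Zm := H ⊕ H) (Zl := Z ⊕ Z) x Finset.univ
    (fun b => kap xt (X (Sum.inr (Sum.inr b)) ^ m (Sum.inr (Sum.inr b)) :
      MvPolynomial (σ ⊕ (H ⊕ Z)) L))
    (fun _ => 0) (fun b => m (Sum.inr (Sum.inr b))) (fun b _ => by
      have h3 : kap xt (X (Sum.inr (Sum.inr b)) : MvPolynomial (σ ⊕ (H ⊕ Z)) L) =
          (X (Sum.inr (Sum.inr (Sum.inl b))) : MvPolynomial (Un H Z) E) := by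
        simp [kap, unk]
      rw [map_pow, h3]
      have h4 := Submodule.pow_mem_pow _ (Xl_mem_sp2 (L := L) (Zt := Fin 0) (Zm := H ⊕ H)
        (Zl := Z ⊕ Z) x (Sum.inl b)) (m (Sum.inr (Sum.inr b)))
      rw [sp2_pow, one_mul, zero_mul] at h4
      exact h4)
  have e4 := mul_mem_sp2 x e1 (mul_mem_sp2 x e2 e3)
  simp only [Finset.sum_const_zero, add_zero, zero_add] at e4
  exact sp2_mono x h1 h2 e4

lemma Xmlt_heavy (x : ι → E) (i : H) :
    (X (mlt (Sum.inl i)) : MvPolynomial (Un H Z) E) ∈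
      sp2 (L := L) (Zt := Fin 0) (Zm := H ⊕ H) (Zl := Z ⊕ Z) x 1 0 := Xm_mem_sp2 x _

lemma Xmlt_light (x : ι → E) (b : Z) :
    (X (mlt (Sum.inr b)) : MvPolynomial (Un H Z) E) ∈
      sp2 (L := L) (Zt := Fin 0) (Zm := H ⊕ H) (Zl := Z ⊕ Z) x 0 1 := Xl_mem_sp2 x _

variable {eq : H ⊕ Z → MvPolynomial (σ ⊕ (H ⊕ Z)) L} {f : MvPolynomial (σ ⊕ (H ⊕ Z)) L}

/-- **The dimension inequality of a system.** -/
theorem sys_dim (x : ι → E) (xt : σ → E) (hx : ∀ v, xt v ∈ xs L x) (δ : ℕ) (hδ : 1 ≤ δ)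
    (heqH : ∀ i, Bideg δ 2 (eq (Sum.inl i))) (heqZ : ∀ b, Bideg δ 1 (eq (Sum.inr b)))
    (hfd : Bideg δ 2 f)
    {u Λ : H ⊕ Z → E} (heq : ∀ k, aeval (Sum.elim xt u) (eq k) = 0)
    (hJ : (Matrix.of fun k j => aeval (Sum.elim xt u) (pderiv (Sum.inr j) (eq k))).det ≠ 0)
    (hΛ : ∀ j, ∑ k, Λ k * aeval (Sum.elim xt u) (pderiv (Sum.inr j) (eq k)) =
      aeval (Sum.elim xt u) (pderiv (Sum.inr j) f)) (u' r a b : ℕ) :
    ((u' + (Fintype.card H + Fintype.card H)).choose (Fintype.card H + Fintype.card H) *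
      (r + (Fintype.card Z + Fintype.card Z)).choose (Fintype.card Z + Fintype.card Z)) *
      finrank L ↥((sp2 (L := L) (Zt := Fin 0) (Zm := H ⊕ H) (Zl := Z ⊕ Z) x a b).map
        (evl L (val u Λ)).toLinearMap) ≤
    (Fintype.card ι + (Fintype.card H + Fintype.card H) + 1).multichoose
        (a + (δ * u' + (δ + 1) * r)) *
      (Fintype.card Z + Fintype.card Z + 1).multichoose (b + (2 * u' + r)) := by
  have h := main_dim2 (L := L) x (rel xt eq f) (val u Λ) (eval_rel heq hΛ)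
    (fun v hv => rel_indep hJ v hv) (fun _ => 0) δ 2 (δ + 1) 1
    (fun z => z.elim0)
    (fun i => by
      rcases i with i | i
      · change kap xt (eq (Sum.inl i)) ∈ _
        exact kap_mem x xt hx (heqH i)
      · change adj xt eq f (Sum.inl i) ∈ _
        unfold adj
        rw [Fintype.sum_sum_type]
        apply Submodule.sub_mem
        · apply Submodule.add_mem
          · apply Submodule.sum_mem
            intro i' _
            exact sp2_mono x (by omega) (by norm_num) (mul_mem_sp2 x (Xmlt_heavy x i')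
              (kap_mem x xt hx ((heqH i').pderiv_heavy i)))
          · apply Submodule.sum_mem
            intro b _
            exact sp2_mono x (by omega) (by norm_num) (mul_mem_sp2 x (Xmlt_light x b)
              (kap_mem x xt hx ((heqZ b).pderiv_heavy i)))
        · exact sp2_mono x (by omega) le_rfl (kap_mem x xt hx (hfd.pderiv_heavy i)))
    (fun i => by
      rcases i with b | b
      · change kap xt (eq (Sum.inr b)) ∈ _
        exact sp2_mono x (by omega) le_rfl (kap_mem x xt hx (heqZ b))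
      · change adj xt eq f (Sum.inr b) ∈ _
        unfold adj
        rw [Fintype.sum_sum_type]
        apply Submodule.sub_mem
        · apply Submodule.add_mem
          · apply Submodule.sum_mem
            intro i' _
            exact sp2_mono x (by omega) (by norm_num) (mul_mem_sp2 x (Xmlt_heavy x i')
              (kap_mem x xt hx ((heqH i').pderiv_light b)))
          · apply Submodule.sum_mem
            intro b' _
            exact sp2_mono x (by omega) (by norm_num) (mul_mem_sp2 x (Xmlt_light x b')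
              (kap_mem x xt hx ((heqZ b').pderiv_light b)))
        · exact sp2_mono x (by omega) (by norm_num) (kap_mem x xt hx (hfd.pderiv_light b)))
    (fun _ => 0) u' r a b
  simp only [Finset.univ_eq_empty, Finset.prod_empty, one_mul, Finset.sum_empty, zero_add,
    Fintype.card_fin, Fintype.card_sum] at h
  exact h

/-- the space of values contains the elements `x i` -/
lemma xs_le_map (x : ι → E) (u Λ : H ⊕ Z → E) (δ : ℕ) (hδ : 1 ≤ δ) (c : E) (hc : c ∈ xs L x) :
    c ∈ (sp2 (L := L) (Zt := Fin 0) (Zm := H ⊕ H) (Zl := Z ⊕ Z) x δ 2).map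
        (evl L (val u Λ)).toLinearMap := by
  refine ⟨C c, sp2_mono x hδ (Nat.zero_le 2) (C_mem_sp2 x c hc), ?_⟩
  change eval (val u Λ) (C c) = c
  rw [eval_C]

/-- the space of values contains the derivatives -/
lemma der_mem_map (x : ι → E) (xt : σ → E) (hx : ∀ v, xt v ∈ xs L x) (δ : ℕ) (hδ : 1 ≤ δ)
    (heqH : ∀ i, Bideg δ 2 (eq (Sum.inl i))) (heqZ : ∀ b, Bideg δ 1 (eq (Sum.inr b)))
    (hfd : Bideg δ 2 f)
    (u Λ : H ⊕ Z → E) (v : σ) :
    aeval (Sum.elim xt u) (pderiv (Sum.inl v) f) -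
      ∑ k, Λ k * aeval (Sum.elim xt u) (pderiv (Sum.inl v) (eq k)) ∈
      (sp2 (L := L) (Zt := Fin 0) (Zm := H ⊕ H) (Zl := Z ⊕ Z) x δ 2).map
        (evl L (val u Λ)).toLinearMap := by
  refine ⟨kap xt (pderiv (Sum.inl v) f) -
    ∑ k, X (mlt k) * kap xt (pderiv (Sum.inl v) (eq k)), ?_, ?_⟩
  · rw [Fintype.sum_sum_type]
    apply Submodule.sub_mem
    · exact sp2_mono x (by omega) le_rfl (kap_mem x xt hx (hfd.pderiv_var v))
    · apply Submodule.add_mem
      · apply Submodule.sum_mem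
        intro i' _
        exact sp2_mono x (by omega) (by norm_num) (mul_mem_sp2 x (Xmlt_heavy x i')
          (kap_mem x xt hx ((heqH i').pderiv_var v)))
      · apply Submodule.sum_mem
        intro b _
        exact sp2_mono x (by omega) (by norm_num) (mul_mem_sp2 x (Xmlt_light x b)
          (kap_mem x xt hx ((heqZ b).pderiv_var v)))
  · change eval (val u Λ) _ = _
    rw [map_sub, map_sum, eval_kap]
    congr 1
    apply Finset.sum_congr rfl
    intro k _
    rw [map_mul, eval_X, val_mlt, eval_kap]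

end Pool.Agent.TH152.NS
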